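import Pool.Agent.Y501.SY.PubV

/-!
Closed two-forms with continuous primitives: the definitions used in the statement.
-/

set_option autoImplicit false

open Set Filter Topology
open scoped Manifold ContDiff

noncomputable section

namespace Pool.Agent.K7.H28.SCP

open Pool.Agent.Y501.SYP

variable {V : Type} [NormedAddCommGroup V] [NormedSpace ℝ V]
  {X : Type} [TopologicalSpace X] [ChartedSpace V X]

/-- The endomorphism field `J` is continuously differentiable, in the charts. -/
def IsC1 (J : End V X) : Prop :=
  ∀ (x₀ : X) (v : V), ContDiffOn ℝ 1 (fun p => inChart J x₀ p v) (chartAt V x₀).target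

/-- The one-form `β` is continuous, in the charts. -/
def IsCont (β : Form V X 1) : Prop :=
  ∀ x₀ : X, ContinuousOn (pb (chartAt V x₀).symm β) (chartAt V x₀).target

end Pool.Agent.K7.H28.SCP
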