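import Pool.Agent.K7.H28.SC.C7
import Pool.Agent.K7.H28.SY.Fin2

/-!
Forms with continuous primitives: the main theorem.
-/

set_option autoImplicit false

open Set Filter Topology MeasureTheory
open scoped Manifold ContDiff

noncomputable section

namespace Pool.Agent.K7.H28.SC

open Pool.Agent.Y501.SY Pool.Agent.Y515.SY Pool.Agent.Y484.SY Pool.Agent.Y658.SY
open Pool.Agent.K7.H28.SY (EqOff ext_form nm_pos)

section

variable {d : ℕ} {X : Type} [TopologicalSpace X] [ChartedSpace (E d) X]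
  [IsManifold (𝓡 d) ∞ X]

theorem mainC [CompactSpace X] [T2Space X] (hd : 1 ≤ d) {J : End d X}
    (hJ : IsAlmostComplex J)
    (hJ1 : ∀ x₀, ContDiffOn ℝ 1 (inChart J x₀) (chartAt (E d) x₀).target) {K : Set X}
    (hH : ∀ x₀ : X, μH[(d : ℝ) - 1] (chartAt (E d) x₀ '' (K ∩ (chartAt (E d) x₀).source)) = 0)
    (hK : IsClosed K) {β : Form d X 1}
    {σ₀ σ : Form d X 2} (hβ : SmoothOff β K)
    (hβc : ∀ x₀, ContinuousOn (pb (chartAt (E d) x₀).symm β) (chartAt (E d) x₀).target)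
    (hσ₀ : IsSmooth σ₀)
    (hσ₀c : IsClosedForm σ₀) (hD : EqOff σ σ₀ β K)
    (hpos : ∀ x, x ∉ K → ∀ v : TangentSpace (𝓡 d) x, 0 ≤ σ x ![v, J x v])
    (hthin : ∀ z, ¬ UTAt σ J K z →
      ThinAt2 0 0 J (connectedComponentIn {x | ¬ UTAt σ J K x} z) z) :
    ∃ (α : Form d X 1) (ρ : Form d X 2), IsSmooth α ∧ IsSmooth ρ ∧ IsD α ρ ∧
      IsSmooth (σ₀ + ρ) ∧ IsClosedForm (σ₀ + ρ) ∧ ∀ x, TamesAt (σ₀ + ρ) J x := by
  classical
  obtain ⟨m, F, hF, -, hFi⟩ := exists_embedding_euclidean_of_compact (I := 𝓡 d) (M := X)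
  have hI := Pool.Agent.Y44.SY.t_IMM
  have hQ := Pool.Agent.Y44.SY.t_QB
  have hFc : IsClosed {x | ¬ UTAt σ J K x} :=
    (isOpen_UTAt hI hF hFi σ J K).isClosed_compl
  have hne : ∃ v : E d, v ≠ 0 := by
    have : Nontrivial (E d) := by
      have : Nonempty (Fin d) := ⟨⟨0, hd⟩⟩
      infer_instance
    exact exists_ne 0
  have hD2 : D2 (0 : Form d X 2) 0 J {x | ¬ UTAt σ J K x} = {x | ¬ UTAt σ J K x} := by
    apply Subset.antisymm
    · exact fun x hx => hx.1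
    · intro x hx
      obtain ⟨v, hv⟩ := hne
      exact ⟨hx, v, hv, rfl, rfl⟩
  obtain ⟨αθ, θ, hpair, hθ⟩ := level2 Pool.Agent.Y484.SY.t_GEN Pool.Agent.Y108.SY.t_PERT2
    Pool.Agent.Y925.SY.t_PLANAR hJ (σ := 0) (θ := 0) IsSmooth.zero IsSmooth.zero hFc (by
      rw [hD2]
      exact hthin)
  obtain ⟨hα, hηs, hαη, hηc⟩ := hpair.props Pool.Agent.Y484.SY.t_GEN
  obtain ⟨s, hs0, hp2⟩ := unif (isCompact_univ (X := X))
    (fun ε y => ∀ s : ℝ, 0 < s → s ≤ ε → y ∉ K →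
      ∀ v : TangentSpace (𝓡 d) y, ε * s * nm F y v ^ 2 ≤ (σ + s • θ) y ![v, J y v])
    (fun ε ε' y hle hp s hs hsε hy v => by
      refine le_trans ?_ (hp s hs (hsε.trans hle) hy v)
      exact mul_le_mul_of_nonneg_right (mul_le_mul_of_nonneg_right hle hs.le) (sq_nonneg _))
    (fun x _ => Pool.Agent.Y929.SY.pos_near hI hQ F hF hFi J hJ σ θ K hηs hpos x (by
      by_cases hx : UTAt σ J K x
      · exact Or.inl hx
      · exact Or.inr fun v hv => hθ x hx v hv rfl rfl))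
  -- the corrected forms
  have hβ' : SmoothOff (β + s • αθ) K := by
    intro U φ hU hφ hUK
    rw [pb_add, pb_smul]
    exact (hβ U φ hU hφ hUK).add (contDiffOn_const.smul (hα U φ hU hφ))
  have hβc' : ∀ x₀, ContinuousOn (pb (chartAt (E d) x₀).symm (β + s • αθ))
      (chartAt (E d) x₀).target := by
    intro x₀
    rw [pb_add, pb_smul]
    exact (hβc x₀).add (continuousOn_const.smul
      (hα _ _ (chartAt (E d) x₀).open_target contMDiffOn_chart_symm).continuousOn)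
  have hD' : EqOff (σ + s • θ) σ₀ (β + s • αθ) K := by
    intro U φ hU hφ hUK p hp
    have h1 : DifferentiableAt ℝ (pb φ β) p :=
      ((hβ U φ hU hφ hUK).contDiffAt (hU.mem_nhds hp)).differentiableAt (by simp)
    have h2 : DifferentiableAt ℝ (pb φ (s • αθ)) p := (hα.smul s).diffAt hU hφ hp
    have h3 := (hαη.smul s) U φ hU hφ p hp
    rw [pb_add, pb_add, extDeriv_add h1 h2, h3]
    change pb φ σ p + pb φ (s • θ) p = _
    rw [hD U φ hU hφ hUK p hp, add_assoc]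
  have hs2 : 0 < s ^ 2 / 2 := by positivity
  obtain ⟨α, η, g1, g2, g3, g4⟩ := approxC hF hFi hd hJ hJ1 hK hH hβ' hβc' hσ₀ hD'
    (c₁ := s ^ 2) (fun x hx v => by
      have h1 := hp2 x (mem_univ x) s hs0 le_rfl hx v
      rwa [← pow_two] at h1) hs2
  have hηcl : IsClosedForm η := by
    intro U φ hU hφ p hp
    have h1 : pb φ η =ᶠ[𝓝 p] extDeriv (pb φ α) := by
      filter_upwards [hU.mem_nhds hp] with y hy
      exact (g3 U φ hU hφ y hy).symm
    rw [h1.extDeriv_eq, extDeriv_extDeriv_apply (r := ∞)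
      ((g1 U φ hU hφ).contDiffAt (hU.mem_nhds hp)) two_le]
    rfl
  refine ⟨α, η, g1, g2, g3, hσ₀.add g2, ?_, ?_⟩
  · have h2 := hσ₀c.add hηcl hσ₀ g2
    rwa [add_zero] at h2
  · intro x v hv
    have h1 := g4 x v
    have hn := nm_pos hFi hv
    have hfin : 0 < s ^ 2 / 2 * nm F x v ^ 2 := by positivity
    change 0 < σ₀ x ![v, J x v] + η x ![v, J x v]
    have h2 : s ^ 2 * nm F x v ^ 2 = s ^ 2 / 2 * nm F x v ^ 2 + s ^ 2 / 2 * nm F x v ^ 2 := by
      ring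
    linarith

end

end Pool.Agent.K7.H28.SC
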