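import Pool.Agent.Y515.SY.RG3

/-!
Exterior derivatives of continuous one-forms, in the sense of distributions.
-/

set_option autoImplicit false

open Set Filter Topology MeasureTheory
open scoped Manifold ContDiff

noncomputable section

namespace Pool.Agent.K7.H28.SC

open Pool.Agent.Y501.SY Pool.Agent.Y515.SY

variable {d : ℕ}

/-- `dB(u, w)` at `q` -/
def dB (B : E d → (E d →L[ℝ] ℝ)) (q u w : E d) : ℝ := fderiv ℝ B q u w - fderiv ℝ B q w u

/-- the integral of `f dB(u, w)`, in the sense of distributions -/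
def AA (B : E d → (E d →L[ℝ] ℝ)) (f : E d → ℝ) (u w : E d) : ℝ :=
  -∫ q, (fderiv ℝ f q u * B q w - fderiv ℝ f q w * B q u)

/-- test functions -/
structure Tst (f : E d → ℝ) : Prop where
  c1 : ContDiff ℝ 1 f
  cs : HasCompactSupport f

theorem Tst.cont {f : E d → ℝ} (h : Tst f) : Continuous f := h.c1.continuous

theorem Tst.dcont {f : E d → ℝ} (h : Tst f) : Continuous (fderiv ℝ f) :=
  h.c1.continuous_fderiv (by simp)

theorem Tst.dcs {f : E d → ℝ} (h : Tst f) : HasCompactSupport (fderiv ℝ f) := h.cs.fderiv ℝ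

theorem Tst.dint {f : E d → ℝ} (h : Tst f) : Integrable (fun q => ‖fderiv ℝ f q‖) :=
  (h.dcont.norm).integrable_of_hasCompactSupport h.dcs.norm

theorem Tst.int {f : E d → ℝ} (h : Tst f) : Integrable f :=
  h.cont.integrable_of_hasCompactSupport h.cs

theorem Tst.int_mul {f : E d → ℝ} (h : Tst f) {g : E d → ℝ} (hg : Continuous g) (u : E d) :
    Integrable (fun q => fderiv ℝ f q u * g q) := by
  have h1 : Continuous (fun q => fderiv ℝ f q u * g q) :=
    (h.dcont.clm_apply continuous_const).mul hg
  refine h1.integrable_of_hasCompactSupport ?_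
  refine HasCompactSupport.mul_right ?_
  exact h.dcs.comp_left (g := fun L : E d →L[ℝ] ℝ => L u) rfl

theorem Tst.int_fderiv {f : E d → ℝ} (h : Tst f) (u : E d) : ∫ q, fderiv ℝ f q u = 0 := by
  have h1 := integral_mul_fderiv_eq_neg_fderiv_mul_of_integrable (μ := (volume : Measure (E d)))
    (f := fun _ : E d => (1 : ℝ)) (g := f) (v := u) (by simp)
    (by simpa using h.int_mul continuous_const (g := fun _ => (1 : ℝ)) u) (by simpa using h.int)
    (fun x _ => differentiableAt_const _) (fun x _ => h.c1.contDiffAt.differentiableAt (by simp))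
  simpa using h1

/-- products with functions which are only defined near the support -/
theorem contDiff_mul_supp {f g : E d → ℝ} {n : WithTop ℕ∞} (hf : ContDiff ℝ n f)
    (hg : ∀ q ∈ tsupport f, ContDiffAt ℝ n g q) : ContDiff ℝ n (fun q => f q * g q) := by
  rw [contDiff_iff_contDiffAt]
  intro q
  by_cases hq : q ∈ tsupport f
  · exact hf.contDiffAt.mul (hg q hq)
  · have h1 : (fun q => f q * g q) =ᶠ[𝓝 q] fun _ => 0 := by
      filter_upwards [(isClosed_tsupport f).isOpen_compl.mem_nhds hq] with y hy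
      rw [image_eq_zero_of_notMem_tsupport hy, zero_mul]
    exact contDiffAt_const.congr_of_eventuallyEq h1

theorem Tst.mul {f g : E d → ℝ} (h : Tst f) (hg : ∀ q ∈ tsupport f, ContDiffAt ℝ 1 g q) :
    Tst (fun q => f q * g q) :=
  ⟨contDiff_mul_supp h.c1 hg, h.cs.mul_right⟩

theorem Tst.add {f g : E d → ℝ} (h : Tst f) (hg : Tst g) : Tst (fun q => f q + g q) :=
  ⟨h.c1.add hg.c1, h.cs.add hg.cs⟩

theorem Tst.smul {f : E d → ℝ} (h : Tst f) (c : ℝ) : Tst (fun q => c * f q) :=
  ⟨contDiff_const.mul h.c1, h.cs.mul_left⟩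

/-- integration by parts -/
theorem AA_ibp {B : E d → (E d →L[ℝ] ℝ)} {f : E d → ℝ} (hf : Tst f)
    (hB : ∀ q ∈ tsupport f, ContDiffAt ℝ 1 B q) (hBc : Continuous B) (u w : E d) :
    AA B f u w = ∫ q, f q * dB B q u w := by
  have hint : ∀ v w : E d, Integrable (fun q => f q * fderiv ℝ B q v w) ∧
      ∫ q, f q * fderiv ℝ B q v w = - ∫ q, fderiv ℝ f q v * B q w := by
    intro v w
    have hBw : ∀ q ∈ tsupport f, ContDiffAt ℝ 1 (fun q => B q w) q := fun q hq =>
      (hB q hq).clm_apply contDiffAt_const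
    have hder : ∀ q ∈ tsupport f, fderiv ℝ (fun q => B q w) q v = fderiv ℝ B q v w := by
      intro q hq
      have h1 := ((hB q hq).differentiableAt (by simp)).hasFDerivAt
      have h2 := (h1.clm_apply (hasFDerivAt_const w q)).fderiv
      rw [h2]
      simp
    have e1 : (fun q => f q * fderiv ℝ (fun q => B q w) q v) =
        fun q => f q * fderiv ℝ B q v w := by
      funext q
      by_cases hq : q ∈ tsupport f
      · rw [hder q hq]
      · rw [image_eq_zero_of_notMem_tsupport hq, zero_mul, zero_mul]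
    have hcont : Continuous (fun q => f q * fderiv ℝ (fun q => B q w) q v) := by
      rw [continuous_iff_continuousAt]
      intro q
      by_cases hq : q ∈ tsupport f
      · have h3 : ContinuousAt (fderiv ℝ (fun q => B q w)) q :=
          ((hBw q hq).fderiv_right (m := 0) (by simp)).continuousAt
        exact hf.cont.continuousAt.mul (h3.clm_apply continuousAt_const)
      · have h1 : (fun q => f q * fderiv ℝ (fun q => B q w) q v) =ᶠ[𝓝 q] fun _ => 0 := by
          filter_upwards [(isClosed_tsupport f).isOpen_compl.mem_nhds hq] with y hy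
          rw [image_eq_zero_of_notMem_tsupport hy, zero_mul]
        exact continuousAt_const.congr h1.symm
    have hi : Integrable (fun q => f q * fderiv ℝ (fun q => B q w) q v) :=
      hcont.integrable_of_hasCompactSupport hf.cs.mul_right
    have hBwc : Continuous (fun q => B q w) := hBc.clm_apply continuous_const
    refine ⟨by rw [← e1]; exact hi, ?_⟩
    rw [← e1]
    exact integral_mul_fderiv_eq_neg_fderiv_mul_of_integrable (hf.int_mul hBwc v) hi
      ((hf.cont.mul hBwc).integrable_of_hasCompactSupport hf.cs.mul_right)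
      (fun x _ => hf.c1.contDiffAt.differentiableAt (by simp))
      (fun x hx => (hBw x hx).differentiableAt (by simp))
  unfold AA dB
  have hBu : Continuous (fun q => B q u) := hBc.clm_apply continuous_const
  have hBw : Continuous (fun q => B q w) := hBc.clm_apply continuous_const
  rw [integral_sub (hf.int_mul hBw u) (hf.int_mul hBu w)]
  have h3 : ∀ q, f q * (fderiv ℝ B q u w - fderiv ℝ B q w u) =
      f q * fderiv ℝ B q u w - f q * fderiv ℝ B q w u := fun q => by ring
  simp_rw [h3]
  rw [integral_sub (hint u w).1 (hint w u).1, (hint u w).2, (hint w u).2]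
  ring

theorem AA_add {B : E d → (E d →L[ℝ] ℝ)} (hBc : Continuous B) {f g : E d → ℝ} (hf : Tst f)
    (hg : Tst g) (u w : E d) : AA B (fun q => f q + g q) u w = AA B f u w + AA B g u w := by
  unfold AA
  have hBu : Continuous (fun q => B q u) := hBc.clm_apply continuous_const
  have hBw : Continuous (fun q => B q w) := hBc.clm_apply continuous_const
  have h1 : ∀ q, fderiv ℝ (fun q => f q + g q) q = fderiv ℝ f q + fderiv ℝ g q := fun q =>
    fderiv_fun_add (hf.c1.contDiffAt.differentiableAt (by simp))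
      (hg.c1.contDiffAt.differentiableAt (by simp))
  have h2 : ∀ q, fderiv ℝ (fun q => f q + g q) q u * B q w -
      fderiv ℝ (fun q => f q + g q) q w * B q u =
      (fderiv ℝ f q u * B q w - fderiv ℝ f q w * B q u) +
      (fderiv ℝ g q u * B q w - fderiv ℝ g q w * B q u) := by
    intro q
    rw [h1]
    change (fderiv ℝ f q u + fderiv ℝ g q u) * B q w -
      (fderiv ℝ f q w + fderiv ℝ g q w) * B q u = _
    ring
  simp_rw [h2]
  have i1 : Integrable (fun q => fderiv ℝ f q u * B q w - fderiv ℝ f q w * B q u) :=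
    (hf.int_mul hBw u).sub (hf.int_mul hBu w)
  have i2 : Integrable (fun q => fderiv ℝ g q u * B q w - fderiv ℝ g q w * B q u) :=
    (hg.int_mul hBw u).sub (hg.int_mul hBu w)
  rw [integral_add i1 i2]
  ring

theorem AA_smul {B : E d → (E d →L[ℝ] ℝ)} {f : E d → ℝ} (hf : Tst f) (c : ℝ) (u w : E d) :
    AA B (fun q => c * f q) u w = c * AA B f u w := by
  unfold AA
  have h1 : ∀ q, fderiv ℝ (fun q => c * f q) q = c • fderiv ℝ f q := fun q =>
    fderiv_const_mul (hf.c1.contDiffAt.differentiableAt (by simp)) c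
  have h2 : ∀ q, fderiv ℝ (fun q => c * f q) q u * B q w -
      fderiv ℝ (fun q => c * f q) q w * B q u =
      c * (fderiv ℝ f q u * B q w - fderiv ℝ f q w * B q u) := by
    intro q
    rw [h1]
    change (c * fderiv ℝ f q u) * B q w - (c * fderiv ℝ f q w) * B q u = _
    ring
  simp_rw [h2]
  rw [integral_const_mul]
  ring

theorem AA_sum_right {B : E d → (E d →L[ℝ] ℝ)} (hBc : Continuous B) {f : E d → ℝ} (hf : Tst f)
    (u w : E d) : AA B f u w = ∑ i, w i * AA B f u (bs i) := by
  unfold AA
  have hBu : Continuous (fun q => B q u) := hBc.clm_apply continuous_const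
  have h1 : ∀ q, fderiv ℝ f q u * B q w - fderiv ℝ f q w * B q u =
      ∑ i, w i * (fderiv ℝ f q u * B q (bs i) - fderiv ℝ f q (bs i) * B q u) := by
    intro q
    have h2 : ∀ L : E d →L[ℝ] ℝ, L w = ∑ i, w i * L (bs i) := by
      intro L
      conv_lhs => rw [← sum_bs w, map_sum]
      refine Finset.sum_congr rfl fun i _ => ?_
      rw [map_smul, smul_eq_mul]
    rw [h2 (B q), h2 (fderiv ℝ f q), Finset.mul_sum, Finset.sum_mul, ← Finset.sum_sub_distrib]
    refine Finset.sum_congr rfl fun i _ => ?_
    ring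
  simp_rw [h1]
  rw [integral_finsetSum]
  · rw [← Finset.sum_neg_distrib]
    refine Finset.sum_congr rfl fun i _ => ?_
    rw [integral_const_mul]
    ring
  · intro i _
    have hBi : Continuous (fun q => B q (bs i)) := hBc.clm_apply continuous_const
    exact ((hf.int_mul hBi u).sub (hf.int_mul hBu (bs i))).const_mul _

/-- the bound in terms of the oscillation -/
theorem AA_bound {B : E d → (E d →L[ℝ] ℝ)} (hBc : Continuous B) {f : E d → ℝ} (hf : Tst f)
    {L : E d →L[ℝ] ℝ} {M : ℝ} (hM : ∀ q ∈ tsupport f, ‖B q - L‖ ≤ M) (u w : E d) :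
    |AA B f u w| ≤ 2 * M * ‖u‖ * ‖w‖ * ∫ q, ‖fderiv ℝ f q‖ := by
  have hBu : Continuous (fun q => B q u) := hBc.clm_apply continuous_const
  have hBw : Continuous (fun q => B q w) := hBc.clm_apply continuous_const
  have h0 : AA B f u w =
      -∫ q, (fderiv ℝ f q u * (B q - L) w - fderiv ℝ f q w * (B q - L) u) := by
    unfold AA
    have h1 : ∀ q, fderiv ℝ f q u * (B q - L) w - fderiv ℝ f q w * (B q - L) u =
        (fderiv ℝ f q u * B q w - fderiv ℝ f q w * B q u) -
          (fderiv ℝ f q u * L w - fderiv ℝ f q w * L u) := by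
      intro q
      change fderiv ℝ f q u * (B q w - L w) - fderiv ℝ f q w * (B q u - L u) = _
      ring
    simp_rw [h1]
    have i1 : Integrable (fun q => fderiv ℝ f q u * L w) :=
      hf.int_mul (g := fun _ => L w) continuous_const u
    have i2 : Integrable (fun q => fderiv ℝ f q w * L u) :=
      hf.int_mul (g := fun _ => L u) continuous_const w
    have i3 : Integrable (fun q => fderiv ℝ f q u * B q w - fderiv ℝ f q w * B q u) :=
      (hf.int_mul hBw u).sub (hf.int_mul hBu w)
    have i4 : Integrable (fun q => fderiv ℝ f q u * L w - fderiv ℝ f q w * L u) := i1.sub i2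
    rw [integral_sub i3 i4, integral_sub i1 i2, integral_mul_const, integral_mul_const,
      hf.int_fderiv, hf.int_fderiv]
    ring
  rw [h0, abs_neg]
  have h2 : ∀ q, ‖fderiv ℝ f q u * (B q - L) w - fderiv ℝ f q w * (B q - L) u‖ ≤
      2 * M * ‖u‖ * ‖w‖ * ‖fderiv ℝ f q‖ := by
    intro q
    by_cases hq : q ∈ tsupport f
    · have e1 : |fderiv ℝ f q u| ≤ ‖fderiv ℝ f q‖ * ‖u‖ := (fderiv ℝ f q).le_opNorm u
      have e2 : |fderiv ℝ f q w| ≤ ‖fderiv ℝ f q‖ * ‖w‖ := (fderiv ℝ f q).le_opNorm w
      have hMq := hM q hq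
      have hM0 : 0 ≤ M := (norm_nonneg _).trans hMq
      have e3 : |(B q - L) w| ≤ M * ‖w‖ := ((B q - L).le_opNorm w).trans (by gcongr)
      have e4 : |(B q - L) u| ≤ M * ‖u‖ := ((B q - L).le_opNorm u).trans (by gcongr)
      rw [Real.norm_eq_abs]
      calc |fderiv ℝ f q u * (B q - L) w - fderiv ℝ f q w * (B q - L) u|
          ≤ |fderiv ℝ f q u * (B q - L) w| + |fderiv ℝ f q w * (B q - L) u| := abs_sub _ _
        _ ≤ (‖fderiv ℝ f q‖ * ‖u‖) * (M * ‖w‖) + (‖fderiv ℝ f q‖ * ‖w‖) * (M * ‖u‖) := by
            rw [abs_mul, abs_mul]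
            gcongr
        _ = _ := by ring
    · have e1 : fderiv ℝ f q = 0 := by
        have : q ∉ tsupport (fderiv ℝ f) := fun h => hq (tsupport_fderiv_subset ℝ h)
        exact image_eq_zero_of_notMem_tsupport this
      rw [e1]
      simp
  have h3 := norm_integral_le_of_norm_le (hf.dint.const_mul (2 * M * ‖u‖ * ‖w‖))
    (Filter.Eventually.of_forall h2)
  rw [integral_const_mul] at h3
  exact h3

end Pool.Agent.K7.H28.SC
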