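import Pool.Agent.K7.H28.SC.C1
import Pool.Agent.Y515.SY.RG

/-!
Lower bounds for exterior derivatives of continuous one-forms, in the sense of distributions.
-/

set_option autoImplicit false

open Set Filter Topology MeasureTheory
open scoped Manifold ContDiff

noncomputable section

namespace Pool.Agent.K7.H28.SC

open Pool.Agent.Y501.SY Pool.Agent.Y515.SY

variable {d : ℕ}

theorem int_fdB {B : E d → (E d →L[ℝ] ℝ)} {f : E d → ℝ} (hf : Tst f)
    (hB : ∀ q ∈ tsupport f, ContDiffAt ℝ 1 B q) (u w : E d) :
    Integrable (fun q => f q * dB B q u w) := by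
  have hcont : Continuous (fun q => f q * dB B q u w) := by
    rw [continuous_iff_continuousAt]
    intro q
    by_cases hq : q ∈ tsupport f
    · have h3 : ContinuousAt (fderiv ℝ B) q :=
        ((hB q hq).fderiv_right (m := 0) (by simp)).continuousAt
      have h4 : ContinuousAt (fun q => dB B q u w) q :=
        ((h3.clm_apply continuousAt_const).clm_apply continuousAt_const).sub
          ((h3.clm_apply continuousAt_const).clm_apply continuousAt_const)
      exact hf.cont.continuousAt.mul h4
    · have h1 : (fun q => f q * dB B q u w) =ᶠ[𝓝 q] fun _ => 0 := by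
        filter_upwards [(isClosed_tsupport f).isOpen_compl.mem_nhds hq] with y hy
        rw [image_eq_zero_of_notMem_tsupport hy, zero_mul]
      exact continuousAt_const.congr h1.symm
  exact hcont.integrable_of_hasCompactSupport hf.cs.mul_right

/-- the integral of a cut-off function -/
theorem eta_int {η : E d → ℝ} {δ : ℝ} (hδ : 0 < δ) (h0 : ∀ x, 0 ≤ η x) (h1 : ∀ x, η x ≤ 1)
    (hv : volume (Function.support η) < ENNReal.ofReal δ) : ∫ x, η x ≤ δ := by
  have e1 : ∫ x, η x = ∫ x in Function.support η, η x := by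
    refine (setIntegral_eq_integral_of_forall_compl_eq_zero fun t ht => ?_).symm
    rwa [Function.notMem_support] at ht
  have e2 : ‖∫ x in Function.support η, η x‖ ≤
      1 * (volume : Measure (E d)).real (Function.support η) :=
    norm_setIntegral_le_of_norm_le_const (hv.trans ENNReal.ofReal_lt_top) fun t _ => by
      rw [Real.norm_of_nonneg (h0 t)]
      exact h1 t
  have e3 : (volume : Measure (E d)).real (Function.support η) ≤ δ := by
    unfold Measure.real
    exact ENNReal.toReal_le_of_le_ofReal hδ.le hv.le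
  rw [e1]
  exact (le_abs_self _).trans (e2.trans (by rw [one_mul]; exact e3))

theorem Tst.bdd {f : E d → ℝ} (h : Tst f) : ∃ C : ℝ, 0 ≤ C ∧ (∀ q, |f q| ≤ C) ∧
    ∀ q, ‖fderiv ℝ f q‖ ≤ C := by
  obtain ⟨C₁, h1⟩ := h.cont.bounded_above_of_compact_support h.cs
  obtain ⟨C₂, h2⟩ := h.dcont.bounded_above_of_compact_support h.dcs
  refine ⟨max 0 (max C₁ C₂), le_max_left _ _, fun q => ?_, fun q => ?_⟩
  · exact (h1 q).trans ((le_max_left _ _).trans (le_max_right _ _))
  · exact (h2 q).trans ((le_max_right _ _).trans (le_max_right _ _))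

/-- the lower bound in the sense of distributions -/
theorem S_lb {B : E d → (E d →L[ℝ] ℝ)} (hBc : Continuous B) {M : ℝ} (hM : ∀ q, ‖B q‖ ≤ M)
    {k : Set (E d)} (hB1 : ∀ q, q ∉ k → ContDiffAt ℝ 1 B q) (hcap : Cap k)
    {f : E d → ℝ} (hf : Tst f) (hf0 : ∀ q, 0 ≤ f q) {u : E d} {g : Fin d → E d → ℝ}
    (hg : ∀ i, ∀ q ∈ tsupport f, ContDiffAt ℝ 1 (g i) q) {m : ℝ}
    (hm : ∀ q ∈ tsupport f, q ∉ k → m ≤ ∑ i, g i q * dB B q u (bs i)) :
    m * ∫ q, f q ≤ ∑ i, AA B (fun q => f q * g i q) u (bs i) := by
  have hM0 : 0 ≤ M := (norm_nonneg _).trans (hM 0)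
  have hF : ∀ i, Tst (fun q => f q * g i q) := fun i => hf.mul (hg i)
  obtain ⟨Cf, hCf0, hCf, -⟩ := hf.bdd
  choose CF hCF0 hCF1 hCF2 using fun i => (hF i).bdd
  set Kc : ℝ := |m| * Cf + ∑ i, 4 * M * ‖u‖ * CF i with hKc
  have hKc0 : 0 ≤ Kc := by
    have h1 : 0 ≤ ∑ i, 4 * M * ‖u‖ * CF i := Finset.sum_nonneg fun i _ => by
      have := hCF0 i
      positivity
    positivity
  have key : ∀ δ : ℝ, 0 < δ →
      m * ∫ q, f q ≤ ∑ i, AA B (fun q => f q * g i q) u (bs i) + Kc * δ := by
    intro δ hδ
    obtain ⟨η, hη, hη0, hη1, hηk, -, hηc, hηv, hηi⟩ :=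
      hcap univ isOpen_univ (subset_univ _) δ hδ
    have hηk' : ∀ q ∈ k, ∀ᶠ x in 𝓝 q, η x = 1 := fun q hq =>
      (eventually_nhdsSet_iff_forall.1 hηk) q hq
    have hη' : ContDiff ℝ 1 η := hη.of_le (by exact_mod_cast le_top)
    have hηc1 : ContDiff ℝ 1 (fun q => 1 - η q) := contDiff_const.sub hη'
    have hint : ∫ x, η x ≤ δ := eta_int hδ hη0 hη1 hηv
    have hηint : Integrable η := hη.continuous.integrable_of_hasCompactSupport hηc
    have hdη : Continuous (fun x => ‖fderiv ℝ η x‖) := (hη.continuous_fderiv (by simp)).norm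
    have hdηi : Integrable (fun x => ‖fderiv ℝ η x‖) :=
      hdη.integrable_of_hasCompactSupport (hηc.fderiv ℝ).norm
    have hT1 : ∀ i, Tst (fun q => (1 - η q) * (f q * g i q)) := fun i =>
      ⟨hηc1.mul (hF i).c1, (hF i).cs.mul_left⟩
    have hT2 : ∀ i, Tst (fun q => η q * (f q * g i q)) := fun i =>
      ⟨hη'.mul (hF i).c1, (hF i).cs.mul_left⟩
    have hsum : ∀ i, AA B (fun q => f q * g i q) u (bs i) =
        AA B (fun q => (1 - η q) * (f q * g i q)) u (bs i) +
        AA B (fun q => η q * (f q * g i q)) u (bs i) := by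
      intro i
      rw [← AA_add hBc (hT1 i) (hT2 i)]
      congr 1
      funext q
      ring
    have hts : ∀ i, ∀ q ∈ tsupport (fun q => (1 - η q) * (f q * g i q)), q ∉ k := by
      intro i q hq hqk
      rw [← notMem_compl_iff] at hq
      apply hq
      rw [mem_compl_iff, notMem_tsupport_iff_eventuallyEq]
      filter_upwards [hηk' q hqk] with x hx
      rw [hx, sub_self, zero_mul]
      rfl
    have hp1 : ∀ i, AA B (fun q => (1 - η q) * (f q * g i q)) u (bs i) =
        ∫ q, (1 - η q) * (f q * g i q) * dB B q u (bs i) := fun i =>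
      AA_ibp (hT1 i) (fun q hq => hB1 q (hts i q hq)) hBc u (bs i)
    have hi1 : ∀ i, Integrable (fun q => (1 - η q) * (f q * g i q) * dB B q u (bs i)) := fun i =>
      int_fdB (hT1 i) (fun q hq => hB1 q (hts i q hq)) u (bs i)
    have hηf : Integrable (fun q => η q * f q) :=
      (hη.continuous.mul hf.cont).integrable_of_hasCompactSupport hηc.mul_right
    have hlow : m * (∫ q, f q) - |m| * Cf * δ ≤
        ∑ i, AA B (fun q => (1 - η q) * (f q * g i q)) u (bs i) := by
      simp_rw [hp1]
      rw [← integral_finsetSum _ (fun i _ => hi1 i)]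
      have h2 : ∫ q, (m * f q - m * (η q * f q)) ≤
          ∫ q, ∑ i, (1 - η q) * (f q * g i q) * dB B q u (bs i) := by
        refine integral_mono ((hf.int.const_mul m).sub (hηf.const_mul m))
          (integrable_finsetSum _ fun i _ => hi1 i) fun q => ?_
        change m * f q - m * (η q * f q) ≤ ∑ i, (1 - η q) * (f q * g i q) * dB B q u (bs i)
        have e1 : ∑ i, (1 - η q) * (f q * g i q) * dB B q u (bs i) =
            (1 - η q) * f q * ∑ i, g i q * dB B q u (bs i) := by
          rw [Finset.mul_sum]
          refine Finset.sum_congr rfl fun i _ => ?_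
          ring
        rw [e1]
        have e2 : m * f q - m * (η q * f q) = (1 - η q) * f q * m := by ring
        rw [e2]
        by_cases hq : q ∈ tsupport f
        · by_cases hqk : q ∈ k
          · rw [(hηk' q hqk).self_of_nhds]
            simp
          · refine mul_le_mul_of_nonneg_left (hm q hq hqk) ?_
            exact mul_nonneg (by linarith [hη1 q]) (hf0 q)
        · rw [image_eq_zero_of_notMem_tsupport hq]
          simp
      refine le_trans ?_ h2
      rw [integral_sub (hf.int.const_mul m) (hηf.const_mul m), integral_const_mul,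
        integral_const_mul]
      have h3 : |∫ q, η q * f q| ≤ Cf * δ := by
        have h4 := norm_integral_le_of_norm_le (hηint.mul_const Cf)
          (f := fun q => η q * f q) (Filter.Eventually.of_forall fun q => by
            rw [norm_mul, Real.norm_of_nonneg (hη0 q)]
            exact mul_le_mul_of_nonneg_left (hCf q) (hη0 q))
        rw [integral_mul_const] at h4
        refine h4.trans ?_
        rw [mul_comm]
        exact mul_le_mul_of_nonneg_left hint hCf0
      have h5 : m * ∫ q, η q * f q ≤ |m| * (Cf * δ) := by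
        refine (le_abs_self _).trans ?_
        rw [abs_mul]
        exact mul_le_mul_of_nonneg_left h3 (abs_nonneg _)
      linarith
    have herr : ∀ i, |AA B (fun q => η q * (f q * g i q)) u (bs i)| ≤
        4 * M * ‖u‖ * CF i * δ := by
      intro i
      have h1 := AA_bound hBc (hT2 i) (L := 0) (M := M) (fun q _ => by
        rw [sub_zero]
        exact hM q) u (bs i)
      rw [bs_norm, mul_one] at h1
      refine h1.trans ?_
      have h2 : ∫ q, ‖fderiv ℝ (fun q => η q * (f q * g i q)) q‖ ≤ 2 * CF i * δ := by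
        have h3 : ∀ q, ‖fderiv ℝ (fun q => η q * (f q * g i q)) q‖ ≤
            CF i * η q + CF i * ‖fderiv ℝ η q‖ := by
          intro q
          have e1 : fderiv ℝ (fun q => η q * (f q * g i q)) q =
              η q • fderiv ℝ (fun q => f q * g i q) q + (f q * g i q) • fderiv ℝ η q :=
            fderiv_fun_mul (hη'.contDiffAt.differentiableAt (by simp))
              ((hF i).c1.contDiffAt.differentiableAt (by simp))
          rw [e1]
          refine (norm_add_le _ _).trans ?_
          rw [norm_smul, norm_smul, Real.norm_of_nonneg (hη0 q)]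
          have e2 : η q * ‖fderiv ℝ (fun q => f q * g i q) q‖ ≤ CF i * η q := by
            rw [mul_comm]
            exact mul_le_mul_of_nonneg_right (hCF2 i q) (hη0 q)
          have e3 : ‖f q * g i q‖ * ‖fderiv ℝ η q‖ ≤ CF i * ‖fderiv ℝ η q‖ :=
            mul_le_mul_of_nonneg_right (hCF1 i q) (norm_nonneg _)
          linarith
        have h4 := integral_mono (hT2 i).dint ((hηint.const_mul (CF i)).add
          (hdηi.const_mul (CF i))) h3
        refine h4.trans ?_
        have h5 : ∫ q, (CF i * η q + CF i * ‖fderiv ℝ η q‖) =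
            CF i * (∫ q, η q) + CF i * ∫ q, ‖fderiv ℝ η q‖ := by
          rw [integral_add (hηint.const_mul (CF i)) (hdηi.const_mul (CF i)),
            integral_const_mul, integral_const_mul]
        have h6 := mul_le_mul_of_nonneg_left hint (hCF0 i)
        have h7 := mul_le_mul_of_nonneg_left hηi.le (hCF0 i)
        change ∫ q, (CF i * η q + CF i * ‖fderiv ℝ η q‖) ≤ _
        rw [h5]
        linarith
      calc 2 * M * ‖u‖ * ∫ q, ‖fderiv ℝ (fun q => η q * (f q * g i q)) q‖
          ≤ 2 * M * ‖u‖ * (2 * CF i * δ) := by gcongr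
        _ = _ := by ring
    have hS : ∑ i, AA B (fun q => f q * g i q) u (bs i) =
        ∑ i, AA B (fun q => (1 - η q) * (f q * g i q)) u (bs i) +
        ∑ i, AA B (fun q => η q * (f q * g i q)) u (bs i) := by
      rw [← Finset.sum_add_distrib]
      exact Finset.sum_congr rfl fun i _ => hsum i
    have hE : -(∑ i, 4 * M * ‖u‖ * CF i * δ) ≤
        ∑ i, AA B (fun q => η q * (f q * g i q)) u (bs i) := by
      rw [← Finset.sum_neg_distrib]
      exact Finset.sum_le_sum fun i _ => (neg_le_neg (herr i)).trans (neg_abs_le _)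
    have hK2 : Kc * δ = |m| * Cf * δ + ∑ i, 4 * M * ‖u‖ * CF i * δ := by
      rw [hKc, add_mul, Finset.sum_mul]
    rw [hS, hK2]
    linarith
  refine le_of_forall_pos_le_add fun e he => ?_
  refine (key (e / (Kc + 1)) (by positivity)).trans ?_
  have h1 : Kc * (e / (Kc + 1)) ≤ e := by
    rw [mul_div_assoc', div_le_iff₀ (by positivity)]
    nlinarith
  linarith

end Pool.Agent.K7.H28.SC
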