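import Pool.Agent.K7.H28.SC.C2

/-!
Lower bounds for averages of exterior derivatives of continuous one-forms.
-/

set_option autoImplicit false

open Set Filter Topology MeasureTheory
open scoped Manifold ContDiff

noncomputable section

namespace Pool.Agent.K7.H28.SC

open Pool.Agent.Y501.SY Pool.Agent.Y515.SY

variable {d : ℕ}

theorem dB_sum_right (B : E d → (E d →L[ℝ] ℝ)) (q u w : E d) :
    dB B q u w = ∑ i, w i * dB B q u (bs i) := by
  have h2 : ∀ L : E d →L[ℝ] ℝ, L w = ∑ i, w i * L (bs i) := by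
    intro L
    conv_lhs => rw [← sum_bs w, map_sum]
    refine Finset.sum_congr rfl fun i _ => ?_
    rw [map_smul, smul_eq_mul]
  have h3 : fderiv ℝ B q w u = ∑ i, w i * fderiv ℝ B q (bs i) u := by
    conv_lhs => rw [← sum_bs w, map_sum, sum_apply]
    refine Finset.sum_congr rfl fun i _ => ?_
    rw [map_smul]
    rfl
  unfold dB
  rw [h2 (fderiv ℝ B q u), h3, ← Finset.sum_sub_distrib]
  refine Finset.sum_congr rfl fun i _ => ?_
  ring

/-- the coordinates of `T u` -/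
def gT (T : E d → (E d →L[ℝ] E d)) (u : E d) (i : Fin d) (q : E d) : ℝ := (T q u) i

theorem gT_fd {T : E d → (E d →L[ℝ] E d)} {q : E d} (hT : DifferentiableAt ℝ T q) (u : E d)
    (i : Fin d) : HasFDerivAt (gT T u i) ((EuclideanSpace.proj (𝕜 := ℝ) i :
      E d →L[ℝ] ℝ).comp ((ContinuousLinearMap.apply ℝ (E d) u).comp (fderiv ℝ T q))) q := by
  have h1 : HasFDerivAt (fun q => T q u)
      ((ContinuousLinearMap.apply ℝ (E d) u).comp (fderiv ℝ T q)) q :=
    (ContinuousLinearMap.apply ℝ (E d) u).hasFDerivAt.comp q hT.hasFDerivAt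
  exact (EuclideanSpace.proj (𝕜 := ℝ) i : E d →L[ℝ] ℝ).hasFDerivAt.comp q h1

theorem gT_norm {T : E d → (E d →L[ℝ] E d)} {q : E d} (hT : DifferentiableAt ℝ T q) {L : ℝ}
    (hL : ‖fderiv ℝ T q‖ ≤ L) (u : E d) (i : Fin d) : ‖fderiv ℝ (gT T u i) q‖ ≤ L * ‖u‖ := by
  rw [(gT_fd hT u i).fderiv]
  have hL0 : 0 ≤ L := (norm_nonneg (fderiv ℝ T q)).trans hL
  refine ContinuousLinearMap.opNorm_le_bound _ (by positivity) fun v => ?_
  change ‖(fderiv ℝ T q v u) i‖ ≤ _
  refine (PiLp.norm_apply_le _ i).trans ?_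
  refine ((fderiv ℝ T q v).le_opNorm u).trans ?_
  have h1 : ‖fderiv ℝ T q v‖ ≤ L * ‖v‖ :=
    ((fderiv ℝ T q).le_opNorm v).trans (by gcongr)
  calc ‖fderiv ℝ T q v‖ * ‖u‖ ≤ (L * ‖v‖) * ‖u‖ := by gcongr
    _ = _ := by ring

theorem gT_cd {T : E d → (E d →L[ℝ] E d)} {q : E d} (hT : ContDiffAt ℝ 1 T q) (u : E d)
    (i : Fin d) : ContDiffAt ℝ 1 (gT T u i) q := by
  have h1 : ContDiffAt ℝ 1 (fun q => T q u) q := hT.clm_apply contDiffAt_const
  exact (EuclideanSpace.proj (𝕜 := ℝ) i : E d →L[ℝ] ℝ).contDiff.contDiffAt.comp q h1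

theorem EC {B : E d → (E d →L[ℝ] ℝ)} (hBc : Continuous B) (hBs : HasCompactSupport B)
    {k : Set (E d)} (hB1 : ∀ q, q ∉ k → ContDiffAt ℝ 1 B q) (hcap : Cap k)
    {N V : Set (E d)} (hN : IsCompact N) (hV : IsOpen V) (hNV : N ⊆ V)
    {T : E d → (E d →L[ℝ] E d)} (hT : ContDiffOn ℝ 1 T V) {h : E d → E d → ℝ}
    (hh : ∀ q ∈ V, q ∉ k → ∀ u, h q u ≤ dB B q u (T q u))
    (hhc : ∀ δ : ℝ, 0 < δ → ∃ r : ℝ, 0 < r ∧ ∀ p ∈ N, ∀ q, dist q p ≤ r →
      ∀ u, h p u - δ * ‖u‖ ^ 2 ≤ h q u) (C₀ : ℝ) {δ : ℝ} (hδ : 0 < δ) :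
    ∃ ε₀ : ℝ, 0 < ε₀ ∧ ∀ ε : ℝ, 0 < ε → ε ≤ ε₀ → ∀ (f : E d → ℝ), ∀ p ∈ N, Tst f →
      (∀ q, 0 ≤ f q) → tsupport f ⊆ Metric.closedBall p ε → ∫ q, f q = 1 →
      ε * ∫ q, ‖fderiv ℝ f q‖ ≤ C₀ → ∀ u, h p u - δ * ‖u‖ ^ 2 ≤ AA B f u (T p u) := by
  obtain ⟨r₁, hr₁, hthick⟩ := hN.exists_cthickening_subset_open hV hNV
  have hN' : IsCompact (Metric.cthickening r₁ N) := hN.cthickening
  obtain ⟨L₀, hL₀⟩ := hN'.exists_bound_of_continuousOn
    ((hT.continuousOn_fderiv_of_isOpen hV le_rfl).mono hthick)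
  obtain ⟨L, hL⟩ : ∃ L : ℝ, L = max L₀ 0 := ⟨_, rfl⟩
  have hL0 : 0 ≤ L := by rw [hL]; exact le_max_right _ _
  have hLb : ∀ q ∈ Metric.cthickening r₁ N, ‖fderiv ℝ T q‖ ≤ L := fun q hq =>
    (hL₀ q hq).trans (by rw [hL]; exact le_max_left _ _)
  obtain ⟨C₁, hC₁⟩ : ∃ C₁ : ℝ, C₁ = max C₀ 0 := ⟨_, rfl⟩
  have hC₁0 : 0 ≤ C₁ := by rw [hC₁]; exact le_max_right _ _
  have hC₀₁ : C₀ ≤ C₁ := by rw [hC₁]; exact le_max_left _ _
  obtain ⟨κ, hκ⟩ : ∃ κ : ℝ, κ = δ / (4 * d * L * (C₁ + 1) + 1) := ⟨_, rfl⟩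
  have hκ0 : 0 < κ := by rw [hκ]; positivity
  have hκ1 : (d : ℝ) * (2 * κ * (L * (C₁ + 1))) ≤ δ / 2 := by
    have h1 : κ * (4 * d * L * (C₁ + 1) + 1) = δ := by
      rw [hκ]
      field_simp
    nlinarith
  obtain ⟨M, hM⟩ := hBc.bounded_above_of_compact_support hBs
  have huc := hBs.uniformContinuous_of_continuous hBc
  rw [Metric.uniformContinuous_iff] at huc
  obtain ⟨r₂, hr₂, huc⟩ := huc κ hκ0
  obtain ⟨r₃, hr₃, hh3⟩ := hhc (δ / 2) (by positivity)
  refine ⟨min r₁ (min (r₂ / 2) r₃), by positivity, fun ε hε hεr f p hp hf hf0 hfs hfi hfd u => ?_⟩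
  have hε1 : ε ≤ r₁ := hεr.trans (min_le_left _ _)
  have hε2 : ε ≤ r₂ / 2 := hεr.trans ((min_le_right _ _).trans (min_le_left _ _))
  have hε3 : ε ≤ r₃ := hεr.trans ((min_le_right _ _).trans (min_le_right _ _))
  have hball : Metric.closedBall p ε ⊆ Metric.cthickening r₁ N :=
    (Metric.closedBall_subset_closedBall hε1).trans (Metric.closedBall_subset_cthickening hp _)
  have hballV : Metric.closedBall p ε ⊆ V := hball.trans hthick
  have hTat : ∀ q ∈ Metric.closedBall p ε, ContDiffAt ℝ 1 T q := fun q hq =>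
    hT.contDiffAt (hV.mem_nhds (hballV hq))
  have hTd : ∀ q ∈ Metric.closedBall p ε, DifferentiableAt ℝ T q := fun q hq =>
    (hTat q hq).differentiableAt (by simp)
  have hTL : ∀ q ∈ Metric.closedBall p ε, ‖T p - T q‖ ≤ L * ε := by
    intro q hq
    have h1 := (convex_closedBall p ε).norm_image_sub_le_of_norm_fderiv_le hTd
      (fun x hx => hLb x (hball hx)) hq (Metric.mem_closedBall_self hε.le)
    refine h1.trans ?_
    rw [Metric.mem_closedBall, dist_eq_norm, norm_sub_rev] at hq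
    gcongr
  have hgc : ∀ i, ∀ q ∈ tsupport f, ContDiffAt ℝ 1 (gT T u i) q := fun i q hq =>
    gT_cd (hTat q (hfs hq)) u i
  -- the averaged inequality
  have hS := S_lb hBc hM hB1 hcap hf hf0 (u := u) (g := gT T u) hgc
    (m := h p u - δ / 2 * ‖u‖ ^ 2) (fun q hq hqk => by
      have h1 := hfs hq
      rw [Metric.mem_closedBall] at h1
      have h2 := hh3 p hp q (h1.trans hε3) u
      have h3 := hh q (hballV (hfs hq)) hqk u
      rw [dB_sum_right] at h3
      exact h2.trans h3)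
  rw [hfi, mul_one] at hS
  -- the difference
  have hd : ∀ i, T p u i * AA B f u (bs i) = AA B (fun q => f q * gT T u i q) u (bs i) +
      AA B (fun q => f q * (T p u i - gT T u i q)) u (bs i) := by
    intro i
    have t2 : Tst (fun q => f q * (T p u i - gT T u i q)) :=
      hf.mul fun q hq => contDiffAt_const.sub (hgc i q hq)
    rw [← AA_smul hf, ← AA_add hBc (hf.mul (hgc i)) t2]
    congr 1
    funext q
    ring
  have herr : ∀ i, |AA B (fun q => f q * (T p u i - gT T u i q)) u (bs i)| ≤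
      2 * κ * (L * (C₁ + 1)) * ‖u‖ ^ 2 := by
    intro i
    have t2 : Tst (fun q => f q * (T p u i - gT T u i q)) :=
      hf.mul fun q hq => contDiffAt_const.sub (hgc i q hq)
    have hts : tsupport (fun q => f q * (T p u i - gT T u i q)) ⊆ tsupport f :=
      tsupport_mul_subset_left
    have h1 := AA_bound hBc t2 (L := B p) (M := κ) (fun q hq => by
      have h2 := hfs (hts hq)
      rw [Metric.mem_closedBall] at h2
      have h3 := huc (a := q) (b := p) (by linarith)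
      rw [dist_eq_norm] at h3
      exact h3.le) u (bs i)
    rw [bs_norm, mul_one] at h1
    refine h1.trans ?_
    have h3 : ∀ q, ‖fderiv ℝ (fun q => f q * (T p u i - gT T u i q)) q‖ ≤
        L * ‖u‖ * (ε * ‖fderiv ℝ f q‖ + f q) := by
      intro q
      by_cases hq : q ∈ tsupport f
      · have hqb := hfs hq
        have e0 : DifferentiableAt ℝ (gT T u i) q := (hgc i q hq).differentiableAt (by simp)
        have e1 : fderiv ℝ (fun q => f q * (T p u i - gT T u i q)) q =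
            f q • fderiv ℝ (fun q => T p u i - gT T u i q) q +
              (T p u i - gT T u i q) • fderiv ℝ f q :=
          fderiv_fun_mul (hf.c1.contDiffAt.differentiableAt (by simp))
            ((differentiableAt_const _).sub e0)
        have e2 : fderiv ℝ (fun q => T p u i - gT T u i q) q = - fderiv ℝ (gT T u i) q :=
          fderiv_const_sub _
        rw [e1, e2]
        refine (norm_add_le _ _).trans ?_
        rw [norm_smul, norm_smul, norm_neg, Real.norm_of_nonneg (hf0 q)]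
        have e3 := gT_norm (hTd q hqb) (hLb q (hball hqb)) u i
        have e4 : ‖T p u i - gT T u i q‖ ≤ L * ε * ‖u‖ := by
          have h5 : T p u i - gT T u i q = ((T p - T q) u) i := rfl
          rw [h5]
          refine (PiLp.norm_apply_le _ i).trans ?_
          refine ((T p - T q).le_opNorm u).trans ?_
          gcongr
          exact hTL q hqb
        calc f q * ‖fderiv ℝ (gT T u i) q‖ + ‖T p u i - gT T u i q‖ * ‖fderiv ℝ f q‖
            ≤ f q * (L * ‖u‖) + (L * ε * ‖u‖) * ‖fderiv ℝ f q‖ := by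
              have := hf0 q
              gcongr
          _ = _ := by ring
      · have e1 : fderiv ℝ (fun q => f q * (T p u i - gT T u i q)) q = 0 := by
          have : q ∉ tsupport (fderiv ℝ (fun q => f q * (T p u i - gT T u i q))) :=
            fun h => hq (hts (tsupport_fderiv_subset ℝ h))
          exact image_eq_zero_of_notMem_tsupport this
        rw [e1, norm_zero]
        have := hf0 q
        positivity
    have h4 := integral_mono t2.dint (((hf.dint.const_mul ε).add hf.int).const_mul (L * ‖u‖)) h3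
    have h5 : ∫ q, L * ‖u‖ * (ε * ‖fderiv ℝ f q‖ + f q) =
        L * ‖u‖ * (ε * (∫ q, ‖fderiv ℝ f q‖) + 1) := by
      rw [integral_const_mul, integral_add (hf.dint.const_mul ε) hf.int, integral_const_mul, hfi]
    have h6 : ∫ q, ‖fderiv ℝ (fun q => f q * (T p u i - gT T u i q)) q‖ ≤
        L * ‖u‖ * (C₁ + 1) := by
      refine h4.trans ?_
      change ∫ q, L * ‖u‖ * (ε * ‖fderiv ℝ f q‖ + f q) ≤ _
      rw [h5]
      have h7 : ε * (∫ q, ‖fderiv ℝ f q‖) + 1 ≤ C₁ + 1 := by linarith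
      exact mul_le_mul_of_nonneg_left h7 (by positivity)
    calc 2 * κ * ‖u‖ * ∫ q, ‖fderiv ℝ (fun q => f q * (T p u i - gT T u i q)) q‖
        ≤ 2 * κ * ‖u‖ * (L * ‖u‖ * (C₁ + 1)) := by gcongr
      _ = _ := by ring
  rw [AA_sum_right hBc hf, Finset.sum_congr rfl fun i _ => hd i, Finset.sum_add_distrib]
  have hE : -(∑ _i : Fin d, 2 * κ * (L * (C₁ + 1)) * ‖u‖ ^ 2) ≤
      ∑ i, AA B (fun q => f q * (T p u i - gT T u i q)) u (bs i) := by
    rw [← Finset.sum_neg_distrib]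
    exact Finset.sum_le_sum fun i _ => (neg_le_neg (herr i)).trans (neg_abs_le _)
  rw [Finset.sum_const, Finset.card_univ, Fintype.card_fin, nsmul_eq_mul] at hE
  have h8 : (d : ℝ) * (2 * κ * (L * (C₁ + 1)) * ‖u‖ ^ 2) ≤ δ / 2 * ‖u‖ ^ 2 := by
    calc (d : ℝ) * (2 * κ * (L * (C₁ + 1)) * ‖u‖ ^ 2)
        = (d : ℝ) * (2 * κ * (L * (C₁ + 1))) * ‖u‖ ^ 2 := by ring
      _ ≤ _ := by gcongr
  linarith

end Pool.Agent.K7.H28.SC
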