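import Pool.Agent.K7.H28.SC.C3
import Pool.Agent.K7.H28.SY.Pot1

/-!
Mollification of continuous one-forms.
-/

set_option autoImplicit false

open Set Filter Topology MeasureTheory
open scoped Manifold ContDiff Convolution

noncomputable section

namespace Pool.Agent.K7.H28.SC

open Pool.Agent.Y501.SY Pool.Agent.Y515.SY

variable {d : ℕ}

theorem mol_exists (d : ℕ) : ∃ C₀ : ℝ, ∀ ε : ℝ, 0 < ε → ∃ φ : E d → ℝ, Moll ε φ ∧
    ε * ∫ y, ‖fderiv ℝ φ y‖ ≤ C₀ := by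
  obtain ⟨ρ, hρ⟩ := moll_exists (d := d) one_pos
  refine ⟨∫ y, ‖fderiv ℝ ρ y‖, fun ε hε => ?_⟩
  have hfin : Module.finrank ℝ (E d) = d := finrank_euclideanSpace_fin
  have hsm : ContDiff ℝ ∞ (fun y : E d => ε⁻¹ • y) := contDiff_const_smul ε⁻¹
  have hεd : (0 : ℝ) < ε ^ d := pow_pos hε d
  have habs : |((ε⁻¹) ^ Module.finrank ℝ (E d))⁻¹| = ε ^ d := by
    rw [hfin, inv_pow, inv_inv, abs_of_pos hεd]
  refine ⟨fun y => (ε ^ d)⁻¹ * ρ (ε⁻¹ • y), ⟨contDiff_const.mul (hρ.smooth.comp hsm),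
    fun y => mul_nonneg (by positivity) (hρ.nonneg _), fun y hy => ?_, ?_⟩, ?_⟩
  · rw [hρ.supp (ε⁻¹ • y), mul_zero]
    rw [norm_smul, norm_inv, Real.norm_of_nonneg hε.le, inv_mul_eq_div, le_div_iff₀ hε, one_mul]
    exact hy
  · rw [integral_const_mul, Measure.integral_comp_smul volume ρ ε⁻¹, habs, hρ.int, smul_eq_mul,
      mul_one, inv_mul_cancel₀ hεd.ne']
  · have h1 : ∀ y, fderiv ℝ (fun y => (ε ^ d)⁻¹ * ρ (ε⁻¹ • y)) y =
        ((ε ^ d)⁻¹ * ε⁻¹) • fderiv ℝ ρ (ε⁻¹ • y) := by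
      intro y
      have e1 : HasFDerivAt (fun y : E d => ε⁻¹ • y) (ε⁻¹ • ContinuousLinearMap.id ℝ (E d)) y :=
        (hasFDerivAt_id y).const_smul ε⁻¹
      have e2 : HasFDerivAt ρ (fderiv ℝ ρ (ε⁻¹ • y)) (ε⁻¹ • y) :=
        ((hρ.smooth.differentiable (by simp)) _).hasFDerivAt
      have e3 := (e2.comp y e1).const_mul (ε ^ d)⁻¹
      have e4 : HasFDerivAt (fun y => (ε ^ d)⁻¹ * ρ (ε⁻¹ • y))
          ((ε ^ d)⁻¹ • ((fderiv ℝ ρ (ε⁻¹ • y)).comp
            (ε⁻¹ • ContinuousLinearMap.id ℝ (E d)))) y := e3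
      rw [e4.fderiv]
      ext v
      change (ε ^ d)⁻¹ * (fderiv ℝ ρ (ε⁻¹ • y) (ε⁻¹ • v)) =
        ((ε ^ d)⁻¹ * ε⁻¹) * fderiv ℝ ρ (ε⁻¹ • y) v
      rw [map_smul, smul_eq_mul]
      ring
    have h2 : ∀ y, ‖fderiv ℝ (fun y => (ε ^ d)⁻¹ * ρ (ε⁻¹ • y)) y‖ =
        ((ε ^ d)⁻¹ * ε⁻¹) * ‖fderiv ℝ ρ (ε⁻¹ • y)‖ := by
      intro y
      rw [h1, norm_smul, Real.norm_of_nonneg (by positivity)]
    simp_rw [h2]
    rw [integral_const_mul, Measure.integral_comp_smul volume (fun y => ‖fderiv ℝ ρ y‖) ε⁻¹,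
      habs, smul_eq_mul]
    refine le_of_eq ?_
    field_simp

/-- mollification -/
def mo (φ : E d → ℝ) (B : E d → (E d →L[ℝ] ℝ)) : E d → (E d →L[ℝ] ℝ) :=
  φ ⋆[ContinuousLinearMap.lsmul ℝ ℝ, volume] B

theorem mo_smooth {φ : E d → ℝ} {ε : ℝ} (hφ : Moll ε φ) {B : E d → (E d →L[ℝ] ℝ)}
    (hB : Continuous B) : ContDiff ℝ ∞ (mo φ B) :=
  (moll_cs hφ).contDiff_convolution_left _ hφ.smooth hB.locallyIntegrable

theorem mo_zero {φ : E d → ℝ} {ε : ℝ} (hφ : Moll ε φ) {B : E d → (E d →L[ℝ] ℝ)} {p : E d}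
    (h : ∀ q, dist q p < ε → B q = 0) : mo φ B p = 0 := by
  unfold mo
  rw [convolution_def]
  have : (fun t => (ContinuousLinearMap.lsmul ℝ ℝ (φ t)) (B (p - t))) = fun _ => 0 := by
    funext t
    by_cases ht : ε ≤ ‖t‖
    · rw [hφ.supp t ht, map_zero]
      rfl
    · rw [h (p - t) (by rw [dist_eq_norm, sub_sub_cancel_left, norm_neg]; exact not_le.1 ht),
        map_zero]
  rw [this, integral_zero]

theorem mo_dB {φ : E d → ℝ} {ε : ℝ} (hφ : Moll ε φ) {B : E d → (E d →L[ℝ] ℝ)}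
    (hB : Continuous B) (p u w : E d) :
    dB (mo φ B) p u w = AA B (fun q => φ (p - q)) u w := by
  have hφ1 : ContDiff ℝ 1 φ := hφ.smooth.of_le (by exact_mod_cast le_top)
  have h0 := ((moll_cs hφ).hasFDerivAt_convolution_left (ContinuousLinearMap.lsmul ℝ ℝ) hφ1
    (hB.locallyIntegrable (μ := volume)) p).fderiv
  have hval : ∀ u w : E d, fderiv ℝ (mo φ B) p u w = ∫ q, fderiv ℝ φ (p - q) u * B q w := by
    intro u w
    have h1 : fderiv ℝ (mo φ B) p = ∫ q, (ContinuousLinearMap.lsmul ℝ ℝ).precompL (E d)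
        (fderiv ℝ φ (p - q)) (B q) := by
      rw [show fderiv ℝ (mo φ B) p = _ from h0, convolution_eq_swap]
    have hdφ : Continuous (fun q => fderiv ℝ φ (p - q)) :=
      (hφ.smooth.continuous_fderiv (by simp)).comp (continuous_const.sub continuous_id)
    have hcs : HasCompactSupport (fun q => fderiv ℝ φ (p - q)) :=
      ((moll_cs hφ).fderiv ℝ).comp_homeomorph (Homeomorph.subLeft p)
    have hcont : Continuous (fun q => (ContinuousLinearMap.lsmul ℝ ℝ).precompL (E d)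
        (fderiv ℝ φ (p - q)) (B q)) :=
      (((ContinuousLinearMap.lsmul ℝ ℝ).precompL (E d)).continuous.comp hdφ).clm_apply hB
    have hint : Integrable (fun q => (ContinuousLinearMap.lsmul ℝ ℝ).precompL (E d)
        (fderiv ℝ φ (p - q)) (B q)) := by
      refine Continuous.integrable_of_hasCompactSupport (E := E d →L[ℝ] E d →L[ℝ] ℝ)
        (X := E d) (by exact hcont) ?_
      refine hcs.mono ?_
      intro q hq hq0
      apply hq
      change fderiv ℝ φ (p - q) = 0 at hq0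
      change (ContinuousLinearMap.lsmul ℝ ℝ).precompL (E d) (fderiv ℝ φ (p - q)) (B q) = 0
      rw [hq0, map_zero]
      rfl
    rw [h1, ContinuousLinearMap.integral_apply hint, ContinuousLinearMap.integral_apply]
    · rfl
    · exact hint.apply_continuousLinearMap u
  have hder : ∀ q, fderiv ℝ (fun q => φ (p - q)) q = - fderiv ℝ φ (p - q) := by
    intro q
    have e1 : HasFDerivAt (fun q : E d => p - q) (-ContinuousLinearMap.id ℝ (E d)) q :=
      (hasFDerivAt_id q).const_sub p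
    have e2 : HasFDerivAt φ (fderiv ℝ φ (p - q)) (p - q) :=
      ((hφ.smooth.differentiable (by simp)) _).hasFDerivAt
    have e3 := (e2.comp q e1).fderiv
    refine e3.trans ?_
    ext v
    simp
  have hdφ : Continuous (fun q => fderiv ℝ φ (p - q)) :=
    (hφ.smooth.continuous_fderiv (by simp)).comp (continuous_const.sub continuous_id)
  have hcs : HasCompactSupport (fun q => fderiv ℝ φ (p - q)) :=
    ((moll_cs hφ).fderiv ℝ).comp_homeomorph (Homeomorph.subLeft p)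
  have hii : ∀ u w : E d, Integrable (fun q => fderiv ℝ φ (p - q) u * B q w) := by
    intro u w
    have hc : Continuous (fun q => fderiv ℝ φ (p - q) u * B q w) :=
      (hdφ.clm_apply continuous_const).mul (hB.clm_apply continuous_const)
    refine hc.integrable_of_hasCompactSupport ?_
    refine HasCompactSupport.mul_right ?_
    exact hcs.comp_left (g := fun L : E d →L[ℝ] ℝ => L u) rfl
  unfold dB AA
  rw [hval, hval, ← integral_sub (hii u w) (hii w u), ← integral_neg]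
  congr 1
  funext q
  rw [hder]
  simp only [neg_apply]
  ring

theorem tst_mol {φ : E d → ℝ} {ε : ℝ} (hφ : Moll ε φ) (p : E d) :
    Tst (fun q => φ (p - q)) := by
  refine ⟨?_, ?_⟩
  · exact (hφ.smooth.of_le (by exact_mod_cast le_top)).comp (contDiff_const.sub contDiff_id)
  · exact (moll_cs hφ).comp_homeomorph (Homeomorph.subLeft p)

theorem EC2 {B : E d → (E d →L[ℝ] ℝ)} (hBc : Continuous B) (hBs : HasCompactSupport B)
    {k : Set (E d)} (hB1 : ∀ q, q ∉ k → ContDiffAt ℝ 1 B q) (hcap : Cap k)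
    {N V : Set (E d)} (hN : IsCompact N) (hV : IsOpen V) (hNV : N ⊆ V)
    {T : E d → (E d →L[ℝ] E d)} (hT : ContDiffOn ℝ 1 T V) {h : E d → E d → ℝ}
    (hh : ∀ q ∈ V, q ∉ k → ∀ u, h q u ≤ dB B q u (T q u))
    (hhc : ∀ δ : ℝ, 0 < δ → ∃ r : ℝ, 0 < r ∧ ∀ p ∈ N, ∀ q, dist q p ≤ r →
      ∀ u, h p u - δ * ‖u‖ ^ 2 ≤ h q u) (C₀ : ℝ) {δ : ℝ} (hδ : 0 < δ) :
    ∃ ε₀ : ℝ, 0 < ε₀ ∧ ∀ ε : ℝ, 0 < ε → ε ≤ ε₀ → ∀ (φ : E d → ℝ), Moll ε φ →
      ε * ∫ y, ‖fderiv ℝ φ y‖ ≤ C₀ → ∀ p ∈ N, ∀ u,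
        h p u - δ * ‖u‖ ^ 2 ≤ dB (mo φ B) p u (T p u) := by
  obtain ⟨ε₀, hε₀, key⟩ := EC hBc hBs hB1 hcap hN hV hNV hT hh hhc C₀ hδ
  refine ⟨ε₀, hε₀, fun ε hε hεε φ hφ hφd p hp u => ?_⟩
  rw [mo_dB hφ hBc]
  refine key ε hε hεε _ p hp (tst_mol hφ p) (fun q => hφ.nonneg _) ?_ ?_ ?_ u
  · refine closure_minimal (fun q hq => ?_) Metric.isClosed_closedBall
    rw [Metric.mem_closedBall, dist_eq_norm, norm_sub_rev]
    by_contra hne
    rw [not_le] at hne
    exact hq (hφ.supp _ hne.le)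
  · rw [integral_sub_left_eq_self φ volume p]
    exact hφ.int
  · have hder : ∀ q, ‖fderiv ℝ (fun q => φ (p - q)) q‖ = ‖fderiv ℝ φ (p - q)‖ := by
      intro q
      have e1 : HasFDerivAt (fun q : E d => p - q) (-ContinuousLinearMap.id ℝ (E d)) q :=
        (hasFDerivAt_id q).const_sub p
      have e2 : HasFDerivAt φ (fderiv ℝ φ (p - q)) (p - q) :=
        ((hφ.smooth.differentiable (by simp)) _).hasFDerivAt
      have e3 := (e2.comp q e1).fderiv
      have e4 : fderiv ℝ (fun q => φ (p - q)) q = - fderiv ℝ φ (p - q) := by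
        refine e3.trans ?_
        ext v
        simp
      rw [e4, norm_neg]
    simp_rw [hder]
    rw [integral_sub_left_eq_self (fun y => ‖fderiv ℝ φ y‖) volume p]
    exact hφd

end Pool.Agent.K7.H28.SC
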