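import Pool.Agent.K7.H28.SC.C4
import Pool.Agent.K7.H28.SY.Prd

/-!
The pieces of a continuous primitive in the charts.
-/

set_option autoImplicit false

open Set Filter Topology MeasureTheory
open scoped Manifold ContDiff

noncomputable section

namespace Pool.Agent.K7.H28.SC

open Pool.Agent.Y501.SY Pool.Agent.Y515.SY Pool.Agent.Y484.SY Pool.Agent.Y658.SY
open Pool.Agent.Y455.SY (A A_surj Q Q_eq)
open Pool.Agent.K7.H28.SY (EqOff ext_form)

section euclid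

variable {d : ℕ}

/-- the inverse of `one` -/
def un (a : (E d) [⋀^Fin 1]→L[ℝ] ℝ) : E d →L[ℝ] ℝ :=
  (ContinuousAlternatingMap.ofSubsingletonLIE (𝕜 := ℝ) (E := E d) (F := ℝ) (0 : Fin 1)).symm a

theorem one_un (a : (E d) [⋀^Fin 1]→L[ℝ] ℝ) : one (un a) = a :=
  (ContinuousAlternatingMap.ofSubsingletonLIE (𝕜 := ℝ) (E := E d) (F := ℝ)
    (0 : Fin 1)).apply_symm_apply a

theorem un_apply (a : (E d) [⋀^Fin 1]→L[ℝ] ℝ) (v : E d) : un a v = a ![v] := by
  have h : one (un a) ![v] = a ![v] := by rw [one_un]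
  exact h

theorem un_contDiff {n : WithTop ℕ∞} : ContDiff ℝ n (un (d := d)) :=
  (ContinuousAlternatingMap.ofSubsingletonLIE (𝕜 := ℝ) (E := E d) (F := ℝ)
    (0 : Fin 1)).symm.contDiff

theorem one_contDiff {n : WithTop ℕ∞} : ContDiff ℝ n (fun a : E d →L[ℝ] ℝ => one a) :=
  (ContinuousAlternatingMap.ofSubsingletonLIE (𝕜 := ℝ) (E := E d) (F := ℝ)
    (0 : Fin 1)).contDiff

theorem one_zero' : one (0 : E d →L[ℝ] ℝ) = 0 := by
  ext v
  rfl

theorem one_smul' (c : ℝ) (a : E d →L[ℝ] ℝ) : one (c • a) = c • one a := by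
  ext v
  rfl

theorem ext_one {C : E d → (E d →L[ℝ] ℝ)} {p : E d} (hC : DifferentiableAt ℝ C p) (u w : E d) :
    extDeriv (fun p => one (C p)) p ![u, w] = dB C p u w := by
  have h4 := ((ContinuousAlternatingMap.ofSubsingletonLIE (𝕜 := ℝ) (E := E d) (F := ℝ)
      (0 : Fin 1)).hasFDerivAt.comp p hC.hasFDerivAt).fderiv
  unfold extDeriv
  have h5 : fderiv ℝ (fun p => one (C p)) p =
      ((ContinuousAlternatingMap.ofSubsingletonLIE (𝕜 := ℝ) (E := E d) (F := ℝ)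
      (0 : Fin 1)).toContinuousLinearEquiv.toContinuousLinearMap).comp (fderiv ℝ C p) := h4
  rw [h5, ContinuousAlternatingMap.alternatizeUncurryFin_apply, Fin.sum_univ_two]
  change (-1 : ℤ) ^ ((0 : Fin 2) : ℕ) • (fderiv ℝ C p u w) +
    (-1 : ℤ) ^ ((1 : Fin 2) : ℕ) • (fderiv ℝ C p w u) = _
  unfold dB
  simp
  ring

theorem unif_h {h : E d → E d → ℝ} {N V : Set (E d)} (hN : IsCompact N) (hV : IsOpen V)
    (hNV : N ⊆ V)
    (hc : ∀ p ∈ V, ∀ u, ContinuousAt (fun z : E d × E d => h z.1 z.2) (p, u))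
    (hhom : ∀ p ∈ V, ∀ (t : ℝ) (u : E d), h p (t • u) = t ^ 2 * h p u) (δ : ℝ) (hδ : 0 < δ) :
    ∃ r : ℝ, 0 < r ∧ ∀ p ∈ N, ∀ q, dist q p ≤ r → ∀ u, h p u - δ * ‖u‖ ^ 2 ≤ h q u := by
  obtain ⟨r₁, hr₁, hthick⟩ := hN.exists_cthickening_subset_open hV hNV
  have hK : IsCompact (Metric.cthickening r₁ N ×ˢ Metric.closedBall (0 : E d) 1) :=
    hN.cthickening.prod (isCompact_closedBall _ _)
  have hcK : ContinuousOn (fun z : E d × E d => h z.1 z.2)
      (Metric.cthickening r₁ N ×ˢ Metric.closedBall (0 : E d) 1) := by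
    rintro ⟨p, u⟩ ⟨hp, -⟩
    exact (hc p (hthick hp) u).continuousWithinAt
  have huc := hK.uniformContinuousOn_of_continuous hcK
  rw [Metric.uniformContinuousOn_iff] at huc
  obtain ⟨r₂, hr₂, huc⟩ := huc δ hδ
  refine ⟨min r₁ (r₂ / 2), by positivity, fun p hp q hq u => ?_⟩
  have hpN : p ∈ Metric.cthickening r₁ N :=
    Metric.closedBall_subset_cthickening hp _ (Metric.mem_closedBall_self hr₁.le)
  have hqN : q ∈ Metric.cthickening r₁ N :=
    Metric.closedBall_subset_cthickening hp _ (by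
      rw [Metric.mem_closedBall]
      exact hq.trans (min_le_left _ _))
  by_cases hu : u = 0
  · have h1 : ∀ p ∈ V, h p 0 = 0 := by
      intro p hp
      have := hhom p hp 0 0
      simpa using this
    rw [hu, h1 p (hthick hpN), h1 q (hthick hqN), norm_zero]
    simp
  · have hn : ‖u‖ ≠ 0 := norm_ne_zero_iff.2 hu
    have e : u = ‖u‖ • (‖u‖⁻¹ • u) := by rw [smul_smul, mul_inv_cancel₀ hn, one_smul]
    have hball : ‖u‖⁻¹ • u ∈ Metric.closedBall (0 : E d) 1 := by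
      rw [mem_closedBall_zero_iff, norm_smul, norm_inv, norm_norm, inv_mul_cancel₀ hn]
    have h1 := huc (p, ‖u‖⁻¹ • u) ⟨hpN, hball⟩ (q, ‖u‖⁻¹ • u) ⟨hqN, hball⟩ (by
      rw [Prod.dist_eq, dist_self, dist_comm]
      have h2 : dist q p ≤ r₂ / 2 := hq.trans (min_le_right _ _)
      exact max_lt (by linarith) hr₂)
    rw [Real.dist_eq] at h1
    have h2 := (abs_lt.1 h1).2
    change h p (‖u‖⁻¹ • u) - h q (‖u‖⁻¹ • u) < δ at h2
    have h3 : h p u = ‖u‖ ^ 2 * h p (‖u‖⁻¹ • u) := by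
      conv_lhs => rw [e]
      exact hhom p (hthick hpN) _ _
    have h4 : h q u = ‖u‖ ^ 2 * h q (‖u‖⁻¹ • u) := by
      conv_lhs => rw [e]
      exact hhom q (hthick hqN) _ _
    rw [h3, h4]
    have h5 : 0 ≤ ‖u‖ ^ 2 := by positivity
    nlinarith

end euclid

section

variable {d : ℕ} {X : Type} [TopologicalSpace X] [ChartedSpace (E d) X]

/-- the lower bound for the piece `d(ψ β)` -/
def Hf {m : ℕ} (F : X → E m) (J : End d X) (β : Form d X 1) (σ₀ : Form d X 2) (c₁ : ℝ)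
    (ψ : X → ℝ) (x : X) (v : TangentSpace (𝓡 d) x) : ℝ :=
  dd (d := d) ψ x v * β x ![J x v] - dd (d := d) ψ x (J x v) * β x ![v] +
    ψ x * (c₁ * nm F x v ^ 2 - σ₀ x ![v, J x v])

/-- the lower bound in a chart -/
def hf {m : ℕ} (F : X → E m) (J : End d X) (β : Form d X 1) (σ₀ : Form d X 2) (c₁ : ℝ)
    (ψ : X → ℝ) (x₀ : X) (p u : E d) : ℝ :=
  fderiv ℝ (ψ ∘ (chartAt (E d) x₀).symm) p u *
      un (pb (chartAt (E d) x₀).symm β p) (inChart J x₀ p u) -
    fderiv ℝ (ψ ∘ (chartAt (E d) x₀).symm) p (inChart J x₀ p u) *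
      un (pb (chartAt (E d) x₀).symm β p) u +
    ψ ((chartAt (E d) x₀).symm p) * (c₁ * ‖fderiv ℝ (F ∘ (chartAt (E d) x₀).symm) p u‖ ^ 2 -
      Q σ₀ J x₀ p u)

variable [IsManifold (𝓡 d) ∞ X]

theorem F_smooth {m : ℕ} {F : X → E m} (hF : ContMDiff (𝓡 d) (𝓡 m) ∞ F) (x₀ : X) :
    ContDiffOn ℝ ∞ (F ∘ (chartAt (E d) x₀).symm) (chartAt (E d) x₀).target :=
  contMDiffOn_iff_contDiffOn.1 (hF.comp_contMDiffOn contMDiffOn_chart_symm)

theorem nm_eq {m : ℕ} {F : X → E m} (hF : ContMDiff (𝓡 d) (𝓡 m) ∞ F) {x₀ : X} {p : E d}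
    (hp : p ∈ (chartAt (E d) x₀).target) (u : E d) :
    nm F ((chartAt (E d) x₀).symm p) (A x₀ p u) =
      ‖fderiv ℝ (F ∘ (chartAt (E d) x₀).symm) p u‖ := by
  have h1 : MDifferentiableAt (𝓡 d) (𝓡 d) (chartAt (E d) x₀).symm p :=
    ((contMDiffOn_chart_symm (n := ∞)).contMDiffAt
      ((chartAt (E d) x₀).open_target.mem_nhds hp)).mdifferentiableAt (by simp)
  have h2 : MDifferentiableAt (𝓡 d) (𝓡 m) F ((chartAt (E d) x₀).symm p) :=
    (hF _).mdifferentiableAt (by simp)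
  have h3 := mfderiv_comp p h2 h1
  rw [mfderiv_eq_fderiv] at h3
  unfold nm
  rw [h3]
  rfl

theorem Hf_eq {m : ℕ} {F : X → E m} (hF : ContMDiff (𝓡 d) (𝓡 m) ∞ F) (J : End d X)
    (β : Form d X 1) (σ₀ : Form d X 2) (c₁ : ℝ) {ψ : X → ℝ} (hψ : SmoothFun (d := d) ψ) {x₀ : X}
    {p : E d} (hp : p ∈ (chartAt (E d) x₀).target) (u : E d) :
    Hf F J β σ₀ c₁ ψ ((chartAt (E d) x₀).symm p) (A x₀ p u) = hf F J β σ₀ c₁ ψ x₀ p u := by
  have hJA : J ((chartAt (E d) x₀).symm p) (A x₀ p u) = A x₀ p (inChart J x₀ p u) :=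
    (Pool.Agent.Y455.SY.AB x₀ hp _).symm
  have hdd : ∀ w : E d, dd (d := d) ψ ((chartAt (E d) x₀).symm p) (A x₀ p w) =
      fderiv ℝ (ψ ∘ (chartAt (E d) x₀).symm) p w := fun w =>
    dd_comp (chartAt (E d) x₀).open_target contMDiffOn_chart_symm hψ hp w
  have hβ : ∀ w : E d, β ((chartAt (E d) x₀).symm p) ![A x₀ p w] =
      un (pb (chartAt (E d) x₀).symm β p) w := by
    intro w
    rw [un_apply]
    have : pb (chartAt (E d) x₀).symm β p ![w] =
      β ((chartAt (E d) x₀).symm p) (fun i => A x₀ p ((![w] : Fin 1 → E d) i)) := rfl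
    rw [this]
    congr 1
    funext i
    fin_cases i
    rfl
  unfold Hf hf
  rw [nm_eq hF hp, Q_eq σ₀ J x₀ hp u, hJA, hdd, hdd, hβ, hβ]

theorem hf_cont {m : ℕ} {F : X → E m} (hF : ContMDiff (𝓡 d) (𝓡 m) ∞ F) {J : End d X}
    (hJ : IsAlmostComplex J) {β : Form d X 1} {σ₀ : Form d X 2} (hσ₀ : IsSmooth σ₀) (c₁ : ℝ)
    {ψ : X → ℝ} (hψ : SmoothFun (d := d) ψ) {x₀ : X}
    (hβc : ContinuousOn (pb (chartAt (E d) x₀).symm β) (chartAt (E d) x₀).target)
    {p : E d} (hp : p ∈ (chartAt (E d) x₀).target) (u : E d) :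
    ContinuousAt (fun z : E d × E d => hf F J β σ₀ c₁ ψ x₀ z.1 z.2) (p, u) := by
  have hn := (chartAt (E d) x₀).open_target.mem_nhds hp
  have hψs := comp_smooth (contMDiffOn_chart_symm (x := x₀) (I := 𝓡 d) (n := ∞)) hψ
  have c1 : ContinuousAt (fun z : E d × E d => fderiv ℝ (ψ ∘ (chartAt (E d) x₀).symm) z.1)
      (p, u) := by
    have h1 : ContinuousAt (fderiv ℝ (ψ ∘ (chartAt (E d) x₀).symm)) p :=
      (hψs.continuousOn_fderiv_of_isOpen (chartAt (E d) x₀).open_target (by simp)).continuousAt hn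
    exact ContinuousAt.comp (f := Prod.fst) (x := (p, u)) h1 continuousAt_fst
  have c2 : ContinuousAt (fun z : E d × E d => fderiv ℝ (F ∘ (chartAt (E d) x₀).symm) z.1)
      (p, u) := by
    have h1 : ContinuousAt (fderiv ℝ (F ∘ (chartAt (E d) x₀).symm)) p :=
      ((F_smooth hF x₀).continuousOn_fderiv_of_isOpen (chartAt (E d) x₀).open_target
        (by simp)).continuousAt hn
    exact ContinuousAt.comp (f := Prod.fst) (x := (p, u)) h1 continuousAt_fst
  have c3 : ContinuousAt (fun z : E d × E d => un (pb (chartAt (E d) x₀).symm β z.1)) (p, u) := by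
    have h1 : ContinuousAt (fun p => un (pb (chartAt (E d) x₀).symm β p)) p :=
      ((un_contDiff (n := 0)).continuous.continuousAt).comp (hβc.continuousAt hn)
    exact ContinuousAt.comp (f := Prod.fst) (x := (p, u)) h1 continuousAt_fst
  have c4 : ContinuousAt (fun z : E d × E d => inChart J x₀ z.1 z.2) (p, u) := by
    have h1 : ContinuousAt (inChart J x₀) p := (hJ.cont x₀).continuousAt hn
    have h2 : ContinuousAt (fun z : E d × E d => inChart J x₀ z.1) (p, u) :=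
      ContinuousAt.comp (f := Prod.fst) (x := (p, u)) h1 continuousAt_fst
    exact h2.clm_apply continuousAt_snd
  have c5 : ContinuousAt (fun z : E d × E d => ψ ((chartAt (E d) x₀).symm z.1)) (p, u) := by
    have h1 : ContinuousAt (ψ ∘ (chartAt (E d) x₀).symm) p := hψs.continuousOn.continuousAt hn
    exact ContinuousAt.comp (f := Prod.fst) (x := (p, u)) h1 continuousAt_fst
  have c6 := Pool.Agent.Y455.SY.Q_cont hσ₀ hJ x₀ (v := u) hp
  unfold hf
  exact (((c1.clm_apply continuousAt_snd).mul (c3.clm_apply c4)).sub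
    ((c1.clm_apply c4).mul (c3.clm_apply continuousAt_snd))).add
    (c5.mul ((continuousAt_const.mul ((c2.clm_apply continuousAt_snd).norm.pow 2)).sub c6))

omit [IsManifold (𝓡 d) ∞ X] in
theorem hf_hom {m : ℕ} (F : X → E m) (J : End d X) (β : Form d X 1) (σ₀ : Form d X 2) (c₁ : ℝ)
    (ψ : X → ℝ) (x₀ : X) (p : E d) (t : ℝ) (u : E d) :
    hf F J β σ₀ c₁ ψ x₀ p (t • u) = t ^ 2 * hf F J β σ₀ c₁ ψ x₀ p u := by
  unfold hf
  rw [Pool.Agent.Y455.SY.Q_smul]
  simp only [map_smul, smul_eq_mul, norm_smul, Real.norm_eq_abs, mul_pow, sq_abs]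
  ring

end

end Pool.Agent.K7.H28.SC
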