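import Pool.Agent.K7.H28.SC.C5

/-!
Regularization of the pieces of a continuous primitive.
-/

set_option autoImplicit false

open Set Filter Topology MeasureTheory
open scoped Manifold ContDiff

noncomputable section

namespace Pool.Agent.K7.H28.SC

open Pool.Agent.Y501.SY Pool.Agent.Y515.SY Pool.Agent.Y484.SY Pool.Agent.Y658.SY
open Pool.Agent.Y455.SY (A A_surj Q Q_eq)
open Pool.Agent.K7.H28.SY (EqOff ext_form)

section

variable {d : ℕ} {X : Type} [TopologicalSpace X] [ChartedSpace (E d) X]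

open Classical in
/-- the piece `ψ β` in a chart -/
def Bp (β : Form d X 1) (ψ : X → ℝ) (x₀ : X) : E d → (E d →L[ℝ] ℝ) := fun p =>
  if p ∈ (chartAt (E d) x₀).target then
    ψ ((chartAt (E d) x₀).symm p) • un (pb (chartAt (E d) x₀).symm β p) else 0

theorem Bp_in {β : Form d X 1} {ψ : X → ℝ} {x₀ : X} {p : E d}
    (hp : p ∈ (chartAt (E d) x₀).target) : Bp β ψ x₀ p =
      ψ ((chartAt (E d) x₀).symm p) • un (pb (chartAt (E d) x₀).symm β p) := if_pos hp

theorem Bp_out {β : Form d X 1} {ψ : X → ℝ} {x₀ : X} {p : E d}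
    (hp : p ∉ (chartAt (E d) x₀).target) : Bp β ψ x₀ p = 0 := if_neg hp

/-- the function `ψ` is supported in the ball of radius `R` in the chart at `x₀` -/
structure SupIn (ψ : X → ℝ) (x₀ : X) (R : ℝ) : Prop where
  hR : 0 < R
  tgt : Metric.closedBall (chartAt (E d) x₀ x₀) (2 * R) ⊆ (chartAt (E d) x₀).target
  sup : ∀ x ∈ tsupport ψ, x ∈ (chartAt (E d) x₀).source ∧
    chartAt (E d) x₀ x ∈ Metric.closedBall (chartAt (E d) x₀ x₀) R

variable [IsManifold (𝓡 d) ∞ X]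

omit [IsManifold (𝓡 d) ∞ X] in
theorem SupIn.tsup {ψ : X → ℝ} {x₀ : X} {R : ℝ} (h : SupIn (d := d) ψ x₀ R) {p : E d}
    (hp : p ∈ (chartAt (E d) x₀).target)
    (hpR : p ∉ Metric.closedBall (chartAt (E d) x₀ x₀) R) :
    (chartAt (E d) x₀).symm p ∉ tsupport ψ := by
  intro hmem
  have h1 := (h.sup _ hmem).2
  rw [(chartAt (E d) x₀).right_inv hp] at h1
  exact hpR h1

omit [IsManifold (𝓡 d) ∞ X] in
theorem Bp_zero {β : Form d X 1} {ψ : X → ℝ} {x₀ : X} {R : ℝ} (h : SupIn (d := d) ψ x₀ R)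
    {p : E d} (hp : p ∉ Metric.closedBall (chartAt (E d) x₀ x₀) R) : Bp β ψ x₀ p = 0 := by
  by_cases hpt : p ∈ (chartAt (E d) x₀).target
  · rw [Bp_in hpt, image_eq_zero_of_notMem_tsupport (h.tsup hpt hp), zero_smul]
  · exact Bp_out hpt

omit [IsManifold (𝓡 d) ∞ X] in
theorem Bp_near {β : Form d X 1} {ψ : X → ℝ} {x₀ : X} {R : ℝ} (h : SupIn (d := d) ψ x₀ R)
    {p : E d} (hp : p ∉ Metric.closedBall (chartAt (E d) x₀ x₀) R) :
    Bp β ψ x₀ =ᶠ[𝓝 p] fun _ => 0 := by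
  filter_upwards [Metric.isClosed_closedBall.isOpen_compl.mem_nhds hp] with q hq
  exact Bp_zero h hq

omit [IsManifold (𝓡 d) ∞ X] in
theorem Bp_cs {β : Form d X 1} {ψ : X → ℝ} {x₀ : X} {R : ℝ} (h : SupIn (d := d) ψ x₀ R) :
    HasCompactSupport (Bp β ψ x₀) :=
  HasCompactSupport.intro (isCompact_closedBall (chartAt (E d) x₀ x₀) R)
    (fun _ hp => Bp_zero h hp)

theorem Bp_cont {β : Form d X 1} {ψ : X → ℝ} (hψ : SmoothFun (d := d) ψ) {x₀ : X} {R : ℝ}
    (h : SupIn (d := d) ψ x₀ R)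
    (hβc : ContinuousOn (pb (chartAt (E d) x₀).symm β) (chartAt (E d) x₀).target) :
    Continuous (Bp β ψ x₀) := by
  rw [continuous_iff_continuousAt]
  intro p
  by_cases hp : p ∈ Metric.closedBall (chartAt (E d) x₀ x₀) R
  · have hpt : p ∈ (chartAt (E d) x₀).target := h.tgt (Metric.closedBall_subset_closedBall
      (by linarith [h.hR]) hp)
    have hn := (chartAt (E d) x₀).open_target.mem_nhds hpt
    have hψs := comp_smooth (contMDiffOn_chart_symm (x := x₀) (I := 𝓡 d) (n := ∞)) hψ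
    have h1 : ContinuousAt (ψ ∘ (chartAt (E d) x₀).symm) p := hψs.continuousOn.continuousAt hn
    have h2 : ContinuousAt (fun p => un (pb (chartAt (E d) x₀).symm β p)) p :=
      ((un_contDiff (n := 0)).continuous.continuousAt).comp (hβc.continuousAt hn)
    refine (h1.smul h2).congr ?_
    filter_upwards [hn] with q hq
    exact (Bp_in hq).symm
  · exact continuousAt_const.congr (Bp_near h hp).symm

/-- smoothness off `K` and the formula for the exterior derivative -/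
theorem Bp_off {β : Form d X 1} {ψ : X → ℝ} (hψ : SmoothFun (d := d) ψ) {x₀ : X}
    {K : Set X} (hK : IsClosed K) (hβ : SmoothOff β K)
    {p : E d} (hp : p ∈ (chartAt (E d) x₀).target) (hpK : (chartAt (E d) x₀).symm p ∉ K) :
    ContDiffAt ℝ 1 (Bp β ψ x₀) p ∧ ∀ u w : E d, dB (Bp β ψ x₀) p u w =
      fderiv ℝ (ψ ∘ (chartAt (E d) x₀).symm) p u * un (pb (chartAt (E d) x₀).symm β p) w -
      fderiv ℝ (ψ ∘ (chartAt (E d) x₀).symm) p w * un (pb (chartAt (E d) x₀).symm β p) u +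
      ψ ((chartAt (E d) x₀).symm p) * extDeriv (pb (chartAt (E d) x₀).symm β) p ![u, w] := by
  set c := chartAt (E d) x₀ with hc
  have hU : IsOpen (c.target ∩ c.symm ⁻¹' Kᶜ) :=
    c.continuousOn_symm.isOpen_inter_preimage c.open_target hK.isOpen_compl
  have hpU : p ∈ c.target ∩ c.symm ⁻¹' Kᶜ := ⟨hp, hpK⟩
  have hn := hU.mem_nhds hpU
  have hsm : ContMDiffOn (𝓡 d) (𝓡 d) ∞ c.symm (c.target ∩ c.symm ⁻¹' Kᶜ) :=
    (contMDiffOn_chart_symm).mono inter_subset_left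
  have hb : ContDiffAt ℝ ∞ (pb c.symm β) p :=
    (hβ _ c.symm hU hsm (fun q hq => hq.2)).contDiffAt hn
  have hψs : ContDiffAt ℝ ∞ (ψ ∘ c.symm) p :=
    (comp_smooth (contMDiffOn_chart_symm (x := x₀) (I := 𝓡 d) (n := ∞)) hψ).contDiffAt
      (c.open_target.mem_nhds hp)
  have hev : Bp β ψ x₀ =ᶠ[𝓝 p] fun q => (ψ ∘ c.symm) q • un (pb c.symm β q) := by
    filter_upwards [c.open_target.mem_nhds hp] with q hq
    exact Bp_in hq
  have hsmB : ContDiffAt ℝ ∞ (Bp β ψ x₀) p :=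
    (hψs.smul (un_contDiff.contDiffAt.comp p hb)).congr_of_eventuallyEq hev
  refine ⟨hsmB.of_le (by exact_mod_cast le_top), fun u w => ?_⟩
  rw [← ext_one (hsmB.differentiableAt (by simp))]
  have hev2 : (fun q => one (Bp β ψ x₀ q)) =ᶠ[𝓝 p] fun q => (ψ ∘ c.symm) q • pb c.symm β q := by
    filter_upwards [hev] with q hq
    rw [hq, one_smul', one_un]
  rw [hev2.extDeriv_eq, ext_prod (hψs.differentiableAt (by simp)) (hb.differentiableAt (by simp))]
  change wedge1 (fderiv ℝ (ψ ∘ c.symm) p) (pb c.symm β p) ![u, w] +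
    (ψ ∘ c.symm) p * extDeriv (pb c.symm β) p ![u, w] = _
  rw [wedge1_apply, un_apply, un_apply]
  have e : ∀ w : E d, (fun _ : Fin 1 => w) = ![w] := by
    intro w
    funext i
    rw [Subsingleton.elim i 0]
    rfl
  change fderiv ℝ (ψ ∘ c.symm) p u * pb c.symm β p (fun _ => w) -
    fderiv ℝ (ψ ∘ c.symm) p w * pb c.symm β p (fun _ => u) + _ = _
  rw [e, e]
  rfl

theorem piece [T2Space X] {m : ℕ} {F : X → E m} (hF : ContMDiff (𝓡 d) (𝓡 m) ∞ F)
    (hFi : ∀ x, Function.Injective (mfderiv (𝓡 d) (𝓡 m) F x)) (hd : 1 ≤ d) {J : End d X}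
    (hJ : IsAlmostComplex J) {x₀ : X}
    (hJ1 : ContDiffOn ℝ 1 (inChart J x₀) (chartAt (E d) x₀).target) {K : Set X}
    (hK : IsClosed K)
    (hH : μH[(d : ℝ) - 1] (chartAt (E d) x₀ '' (K ∩ (chartAt (E d) x₀).source)) = 0)
    {β : Form d X 1} {σ₀ σ : Form d X 2} (hβ : SmoothOff β K)
    (hβc : ContinuousOn (pb (chartAt (E d) x₀).symm β) (chartAt (E d) x₀).target)
    (hσ₀ : IsSmooth σ₀) (hD : EqOff σ σ₀ β K) {c₁ : ℝ}
    (hpos : ∀ x, x ∉ K → ∀ v : TangentSpace (𝓡 d) x, c₁ * nm F x v ^ 2 ≤ σ x ![v, J x v])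
    {ψ : X → ℝ} (hψ : SmoothFun (d := d) ψ) (hψ0 : ∀ x, 0 ≤ ψ x) {R : ℝ}
    (hS : SupIn (d := d) ψ x₀ R) {δ : ℝ} (hδ : 0 < δ) :
    ∃ (α : Form d X 1) (η : Form d X 2), IsSmooth α ∧ IsSmooth η ∧ IsD α η ∧
      ∀ (x : X) (v : TangentSpace (𝓡 d) x),
        Hf F J β σ₀ c₁ ψ x v - δ * nm F x v ^ 2 ≤ η x ![v, J x v] := by
  set c := chartAt (E d) x₀ with hc
  have hR := hS.hR
  have hball1 : Metric.closedBall (c x₀) R ⊆ c.target := (Metric.closedBall_subset_closedBall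
    (by linarith)).trans hS.tgt
  have hN't : Metric.closedBall (c x₀) (3 / 2 * R) ⊆ c.target :=
    (Metric.closedBall_subset_closedBall (by linarith)).trans hS.tgt
  obtain ⟨c₀, C₀', hc₀, -, hnm⟩ := Pool.Agent.Y44.SY.t_IMM d m X F hF hFi x₀ _
    (isCompact_closedBall (c x₀) (3 / 2 * R)) hN't
  -- the singular set
  set k : Set (E d) := c '' (K ∩ c.source) ∩ Metric.closedBall (c x₀) R with hk
  have hkc : IsCompact k := by
    have h1 : IsClosed (Metric.closedBall (c x₀) R ∩ c.symm ⁻¹' K) :=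
      (c.continuousOn_symm.mono hball1).preimage_isClosed_of_isClosed
        Metric.isClosed_closedBall hK
    have h2 : k = Metric.closedBall (c x₀) R ∩ c.symm ⁻¹' K := by
      ext p
      constructor
      · rintro ⟨⟨x, ⟨hxK, hxs⟩, rfl⟩, hp⟩
        refine ⟨hp, ?_⟩
        rw [mem_preimage, c.left_inv hxs]
        exact hxK
      · rintro ⟨hp, hpK⟩
        exact ⟨⟨c.symm p, ⟨hpK, c.map_target (hball1 hp)⟩, c.right_inv (hball1 hp)⟩, hp⟩
    rw [h2]
    exact (isCompact_closedBall (c x₀) R).of_isClosed_subset h1 inter_subset_left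
  have hcap : Cap k := Pool.Agent.Y501.SY.t_CAP d hd k hkc
    (measure_mono_null inter_subset_left hH)
  have hoffk : ∀ p ∈ Metric.closedBall (c x₀) R, p ∉ k → c.symm p ∉ K := by
    intro p hp hpk hpK
    exact hpk ⟨⟨c.symm p, ⟨hpK, c.map_target (hball1 hp)⟩, c.right_inv (hball1 hp)⟩, hp⟩
  have hB1 : ∀ q, q ∉ k → ContDiffAt ℝ 1 (Bp β ψ x₀) q := by
    intro q hq
    by_cases hqR : q ∈ Metric.closedBall (c x₀) R
    · exact (Bp_off hψ hK hβ (hball1 hqR) (hoffk q hqR hq)).1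
    · exact contDiffAt_const.congr_of_eventuallyEq (Bp_near hS hqR)
  have hhf : ∀ q ∈ c.target, q ∉ k → ∀ u, hf F J β σ₀ c₁ ψ x₀ q u ≤
      dB (Bp β ψ x₀) q u (inChart J x₀ q u) := by
    intro q hq hqk u
    by_cases hqR : q ∈ Metric.closedBall (c x₀) R
    · have hqK := hoffk q hqR hqk
      rw [(Bp_off hψ hK hβ hq hqK).2]
      unfold hf
      have h1 : c₁ * ‖fderiv ℝ (F ∘ c.symm) q u‖ ^ 2 - Q σ₀ J x₀ q u ≤
          extDeriv (pb c.symm β) q ![u, inChart J x₀ q u] := by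
        have hU : IsOpen (c.target ∩ c.symm ⁻¹' Kᶜ) :=
          c.continuousOn_symm.isOpen_inter_preimage c.open_target hK.isOpen_compl
        have h2 := hD _ c.symm hU ((contMDiffOn_chart_symm).mono inter_subset_left)
          (fun q hq => hq.2) q ⟨hq, hqK⟩
        have h3 := hpos _ hqK (A x₀ q u)
        rw [nm_eq hF hq, ← Q_eq σ J x₀ hq u] at h3
        have h4 : Q σ J x₀ q u = Q σ₀ J x₀ q u +
            extDeriv (pb c.symm β) q ![u, inChart J x₀ q u] := by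
          change pb c.symm σ q ![u, inChart J x₀ q u] = _
          rw [h2]
          rfl
        linarith
      have h2 := mul_le_mul_of_nonneg_left h1 (hψ0 (c.symm q))
      linarith
    · have h0 : hf F J β σ₀ c₁ ψ x₀ q u = 0 := by
        have h1 := hS.tsup hq hqR
        have h2 : ψ ∘ c.symm =ᶠ[𝓝 q] fun _ => 0 := by
          have h3 : ∀ᶠ y in 𝓝 (c.symm q), ψ y = 0 := notMem_tsupport_iff_eventuallyEq.1 h1
          exact (c.continuousAt_symm hq).eventually h3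
        unfold hf
        rw [h2.fderiv_eq, image_eq_zero_of_notMem_tsupport h1]
        simp
      have h1 : dB (Bp β ψ x₀) q u (inChart J x₀ q u) = 0 := by
        unfold dB
        rw [(Bp_near hS hqR).fderiv_eq]
        simp
      rw [h0, h1]
  have hN : IsCompact (Metric.closedBall (c x₀) (3 / 2 * R)) := isCompact_closedBall _ _
  obtain ⟨C₀, hmol⟩ := mol_exists d
  have hδ' : 0 < δ * c₀ ^ 2 := by positivity
  obtain ⟨ε₀, hε₀, key⟩ := EC2 (Bp_cont hψ hS hβc) (Bp_cs hS) hB1 hcap hN c.open_target hN't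
    hJ1 (h := hf F J β σ₀ c₁ ψ x₀) hhf (fun δ hδ => unif_h hN c.open_target hN't
      (fun p hp u => hf_cont hF hJ hσ₀ c₁ hψ hβc hp u)
      (fun p _ t u => hf_hom F J β σ₀ c₁ ψ x₀ p t u) δ hδ) C₀ hδ'
  obtain ⟨ε, hε⟩ : ∃ ε : ℝ, ε = min ε₀ (R / 2) := ⟨_, rfl⟩
  have hε0 : 0 < ε := by rw [hε]; positivity
  obtain ⟨φ, hφ, hφd⟩ := hmol ε hε0
  have key2 := key ε hε0 (by rw [hε]; exact min_le_left _ _) φ hφ hφd
  have hsm : ContDiff ℝ ∞ (mo φ (Bp β ψ x₀)) := mo_smooth hφ (Bp_cont hψ hS hβc)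
  have hz : ∀ p, p ∉ Metric.closedBall (c x₀) (3 / 2 * R) → mo φ (Bp β ψ x₀) p = 0 := by
    intro p hp
    refine mo_zero hφ fun q hq => Bp_zero hS fun hqR => hp ?_
    rw [Metric.mem_closedBall] at hqR ⊢
    have h1 := dist_triangle p q (c x₀)
    rw [dist_comm p q] at h1
    have h2 : ε ≤ R / 2 := by rw [hε]; exact min_le_right _ _
    linarith
  obtain ⟨α, η, hα, hη, hαη, h0, -, hη2⟩ := ext_form x₀ hN hN't
    (b := fun p => one (mo φ (Bp β ψ x₀) p)) (one_contDiff.comp hsm) (fun p hp => by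
      rw [hz p hp, one_zero'])
  refine ⟨α, η, hα, hη, hαη, fun x v => ?_⟩
  by_cases hx : x ∈ c.source ∧ c x ∈ Metric.closedBall (c x₀) (3 / 2 * R)
  · obtain ⟨hxs, hxR⟩ := hx
    obtain ⟨p, hp⟩ : ∃ p, p = c x := ⟨_, rfl⟩
    rw [← hp] at hxR
    have hpt : p ∈ c.target := hN't hxR
    have hxp : x = c.symm p := by rw [hp, c.left_inv hxs]
    subst hxp
    obtain ⟨u, hu⟩ := A_surj x₀ hpt v
    have hu' : v = A x₀ p u := hu.symm
    subst hu'
    rw [Hf_eq hF J β σ₀ c₁ hψ hpt, ← Q_eq η J x₀ hpt]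
    change _ ≤ pb c.symm η p ![u, inChart J x₀ p u]
    rw [hη2 p hpt, ext_one (hsm.contDiffAt.differentiableAt (by simp))]
    refine le_trans ?_ (key2 p hxR u)
    have h1 := (hnm p hxR u).1
    have h2 : (c₀ * ‖u‖) ^ 2 ≤ nm F (c.symm p) (A x₀ p u) ^ 2 :=
      pow_le_pow_left₀ (by positivity) h1 2
    have h3 : δ * (c₀ * ‖u‖) ^ 2 ≤ δ * nm F (c.symm p) (A x₀ p u) ^ 2 := by gcongr
    have h4 : δ * c₀ ^ 2 * ‖u‖ ^ 2 = δ * (c₀ * ‖u‖) ^ 2 := by ring
    linarith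
  · have hx' : x ∉ c.source ∨ c x ∉ Metric.closedBall (c x₀) (3 / 2 * R) := by
      by_contra hne
      rw [not_or, not_not, not_not] at hne
      exact hx hne
    have hxt : x ∉ tsupport ψ := by
      intro hmem
      have h1 := hS.sup x hmem
      exact hx ⟨h1.1, Metric.closedBall_subset_closedBall (by linarith) h1.2⟩
    rw [(h0 x hx').2]
    have hev : ψ =ᶠ[𝓝 x] fun _ => 0 := notMem_tsupport_iff_eventuallyEq.1 hxt
    have hH0 : Hf F J β σ₀ c₁ ψ x v = 0 := by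
      unfold Hf
      rw [Pool.Agent.K7.H28.SY.dd_zero_of_near hev, Pool.Agent.K7.H28.SY.dd_zero_of_near hev,
        image_eq_zero_of_notMem_tsupport hxt]
      ring
    rw [hH0]
    have : 0 ≤ δ * nm F x v ^ 2 := by positivity
    change 0 - δ * nm F x v ^ 2 ≤ 0
    linarith

end

end Pool.Agent.K7.H28.SC
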