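import Pool.Agent.K7.H28.SC.C6

/-!
Regularization of continuous primitives.
-/

set_option autoImplicit false

open Set Filter Topology MeasureTheory
open scoped Manifold ContDiff

noncomputable section

namespace Pool.Agent.K7.H28.SC

open Pool.Agent.Y501.SY Pool.Agent.Y515.SY Pool.Agent.Y484.SY Pool.Agent.Y658.SY
open Pool.Agent.K7.H28.SY (EqOff ext_form)

section

variable {d : ℕ} {X : Type} [TopologicalSpace X] [ChartedSpace (E d) X]
  [IsManifold (𝓡 d) ∞ X]

omit [IsManifold (𝓡 d) ∞ X] in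
theorem isD_sum {ι : Type} (s : Finset ι) {α : ι → Form d X 1} {η : ι → Form d X 2}
    (hα : ∀ i ∈ s, IsSmooth (α i)) (h : ∀ i ∈ s, IsD (α i) (η i)) :
    IsD (∑ i ∈ s, α i) (∑ i ∈ s, η i) := by
  classical
  induction s using Finset.induction_on with
  | empty => simpa using IsD.zero
  | insert a s ha ih =>
    rw [Finset.sum_insert ha, Finset.sum_insert ha]
    exact (h a (Finset.mem_insert_self a s)).add
      (ih (fun i hi => hα i (Finset.mem_insert_of_mem hi))
        (fun i hi => h i (Finset.mem_insert_of_mem hi)))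
      (hα a (Finset.mem_insert_self a s))
      (IsSmooth.sum s fun i hi => hα i (Finset.mem_insert_of_mem hi))

omit [IsManifold (𝓡 d) ∞ X] in
theorem smooth_sum {ι : Type} (s : Finset ι) {f : ι → X → ℝ}
    (hf : ∀ i ∈ s, SmoothFun (d := d) (f i)) :
    SmoothFun (d := d) (fun x => ∑ i ∈ s, f i x) ∧ ∀ (x : X) (v : TangentSpace (𝓡 d) x),
      dd (d := d) (fun x => ∑ i ∈ s, f i x) x v = ∑ i ∈ s, dd (d := d) (f i) x v := by
  classical
  induction s using Finset.induction_on with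
  | empty =>
    simp only [Finset.sum_empty]
    exact ⟨SmoothFun.const 0, fun x v =>
      Pool.Agent.K7.H28.SY.dd_zero_of_near (c := 0) (Filter.EventuallyEq.rfl) v⟩
  | insert a s ha ih =>
    obtain ⟨i1, i2⟩ := ih fun i hi => hf i (Finset.mem_insert_of_mem hi)
    have h1 := hf a (Finset.mem_insert_self a s)
    have e : (fun x => ∑ i ∈ insert a s, f i x) = fun x => f a x + ∑ i ∈ s, f i x := by
      funext x
      exact Finset.sum_insert ha
    rw [e]
    refine ⟨h1.add i1, fun x v => ?_⟩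
    rw [dd_add h1 i1, i2, Finset.sum_insert ha]

theorem approxC [CompactSpace X] [T2Space X] {m : ℕ} {F : X → E m}
    (hF : ContMDiff (𝓡 d) (𝓡 m) ∞ F)
    (hFi : ∀ x, Function.Injective (mfderiv (𝓡 d) (𝓡 m) F x)) (hd : 1 ≤ d) {J : End d X}
    (hJ : IsAlmostComplex J)
    (hJ1 : ∀ x₀, ContDiffOn ℝ 1 (inChart J x₀) (chartAt (E d) x₀).target) {K : Set X}
    (hK : IsClosed K)
    (hH : ∀ x₀ : X, μH[(d : ℝ) - 1] (chartAt (E d) x₀ '' (K ∩ (chartAt (E d) x₀).source)) = 0)
    {β : Form d X 1} {σ₀ σ : Form d X 2} (hβ : SmoothOff β K)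
    (hβc : ∀ x₀, ContinuousOn (pb (chartAt (E d) x₀).symm β) (chartAt (E d) x₀).target)
    (hσ₀ : IsSmooth σ₀) (hD : EqOff σ σ₀ β K) {c₁ : ℝ}
    (hpos : ∀ x, x ∉ K → ∀ v : TangentSpace (𝓡 d) x, c₁ * nm F x v ^ 2 ≤ σ x ![v, J x v])
    {δ : ℝ} (hδ : 0 < δ) :
    ∃ (α : Form d X 1) (η : Form d X 2), IsSmooth α ∧ IsSmooth η ∧ IsD α η ∧
      ∀ (x : X) (v : TangentSpace (𝓡 d) x),
        c₁ * nm F x v ^ 2 - σ₀ x ![v, J x v] - δ * nm F x v ^ 2 ≤ η x ![v, J x v] := by
  classical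
  have hRex : ∀ x : X, ∃ R : ℝ, 0 < R ∧
      Metric.closedBall (chartAt (E d) x x) (2 * R) ⊆ (chartAt (E d) x).target := by
    intro x
    obtain ⟨r, hr, hb⟩ := Metric.nhds_basis_closedBall.mem_iff.1
      ((chartAt (E d) x).open_target.mem_nhds (mem_chart_target (E d) x))
    refine ⟨r / 2, by positivity, ?_⟩
    rwa [mul_div_cancel₀ r two_ne_zero]
  choose R hR htgt using hRex
  set U : X → Set X := fun x => (chartAt (E d) x).source ∩
    chartAt (E d) x ⁻¹' Metric.ball (chartAt (E d) x x) (R x) with hU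
  have hUo : ∀ x, IsOpen (U x) := fun x =>
    (chartAt (E d) x).continuousOn.isOpen_inter_preimage (chartAt (E d) x).open_source
      Metric.isOpen_ball
  have hUx : ∀ x, x ∈ U x := fun x => ⟨mem_chart_source (E d) x, Metric.mem_ball_self (hR x)⟩
  obtain ⟨t, -, ht⟩ := isCompact_univ.elim_nhds_subcover U
    (fun x _ => (hUo x).mem_nhds (hUx x))
  obtain ⟨f, hf⟩ := SmoothPartitionOfUnity.exists_isSubordinate (𝓡 d) (s := (univ : Set X))
    isClosed_univ (fun i : t => U i) (fun i => hUo i) (by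
      intro x hx
      obtain ⟨y, hy, hxy⟩ := mem_iUnion₂.1 (ht hx)
      exact mem_iUnion.2 ⟨⟨y, hy⟩, hxy⟩)
  have hfs : ∀ i : t, SmoothFun (d := d) (fun x => f i x) := fun i => (f i).contMDiff
  have hsup : ∀ i : t, SupIn (d := d) (fun x => f i x) (i : X) (R i) := fun i =>
    ⟨hR i, htgt i, fun x hx => ⟨(hf i hx).1, Metric.ball_subset_closedBall (hf i hx).2⟩⟩
  have hsum : ∀ x, ∑ i : t, f i x = 1 := by
    intro x
    have h1 := f.sum_eq_one (mem_univ x)
    rwa [finsum_eq_sum_of_fintype] at h1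
  have hδ' : 0 < δ / (Fintype.card t + 1) := by positivity
  choose α η hα hη hαη hlow using fun i : t => piece hF hFi hd hJ (hJ1 i) hK (hH i) hβ (hβc i)
    hσ₀ hD hpos (hfs i) (fun x => f.nonneg i x) (hsup i) hδ'
  refine ⟨∑ i, α i, ∑ i, η i, IsSmooth.sum _ fun i _ => hα i, IsSmooth.sum _ fun i _ => hη i,
    isD_sum _ (fun i _ => hα i) (fun i _ => hαη i), fun x v => ?_⟩
  have hval : (∑ i, η i) x ![v, J x v] = ∑ i, η i x ![v, J x v] := by
    rw [Finset.sum_apply, ContinuousAlternatingMap.sum_apply]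
  rw [hval]
  have h1 : ∑ i : t, (Hf F J β σ₀ c₁ (fun x => f i x) x v -
      δ / (Fintype.card t + 1) * nm F x v ^ 2) ≤ ∑ i, η i x ![v, J x v] :=
    Finset.sum_le_sum fun i _ => hlow i x v
  refine le_trans ?_ h1
  rw [Finset.sum_sub_distrib, Finset.sum_const, Finset.card_univ, nsmul_eq_mul]
  have hdd : ∀ w : TangentSpace (𝓡 d) x, ∑ i : t, dd (d := d) (fun x => f i x) x w = 0 := by
    intro w
    rw [← (smooth_sum Finset.univ (f := fun (i : t) x => f i x) (fun i _ => hfs i)).2 x w]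
    have e : (fun x => ∑ i : t, f i x) = fun _ => 1 := funext hsum
    rw [e]
    exact Pool.Agent.K7.H28.SY.dd_zero_of_near (c := 1) (Filter.EventuallyEq.rfl) w
  have hH : ∑ i : t, Hf F J β σ₀ c₁ (fun x => f i x) x v =
      c₁ * nm F x v ^ 2 - σ₀ x ![v, J x v] := by
    unfold Hf
    rw [Finset.sum_add_distrib, Finset.sum_sub_distrib, ← Finset.sum_mul, ← Finset.sum_mul,
      ← Finset.sum_mul, hdd, hdd, hsum]
    ring
  rw [hH]
  have hc : (Fintype.card t : ℝ) * (δ / (Fintype.card t + 1) * nm F x v ^ 2) ≤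
      δ * nm F x v ^ 2 := by
    have h2 : (Fintype.card t : ℝ) * (δ / (Fintype.card t + 1)) ≤ δ := by
      rw [mul_div_assoc', div_le_iff₀ (by positivity)]
      nlinarith
    have h3 := mul_le_mul_of_nonneg_right h2 (sq_nonneg (nm F x v))
    linarith
  linarith

end

end Pool.Agent.K7.H28.SC
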